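import Pool.Agent.R88.UB.Layer

/-!
# Explicit representations of `K_{m,n}`
-/

set_option autoImplicit false

namespace Pool.Agent.R88.UB

open Finset
open scoped Classical

/-- small shifts -/
noncomputable def sh (J k : ℕ) : ℝ := ((k : ℝ) + 1) / (J + 2)

/-- offsets in the rows of the first block -/
noncomputable def off (J r k : ℕ) : ℝ :=
  if r = 3 then 0 else if r = 0 ∨ r = 6 then sh J k + 1 / 2 else sh J k

/-- positions: the rows `0, …, 6` form the first block, the rows `8, 9, …` the second block -/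
noncomputable def PP (J r k : ℕ) : ℝ :=
  if r < 8 then (k : ℝ) + off J r k - (J + 10) else (k : ℝ) + ((r : ℝ) - 8) / 2

theorem sh_pos (J k : ℕ) : 0 < sh J k := by unfold sh; positivity

theorem sh_lt_one {J k : ℕ} (h : k < J + 1) : sh J k < 1 := by
  unfold sh
  rw [div_lt_one (by positivity)]
  have : (k : ℝ) + 1 ≤ J + 1 := by exact_mod_cast h
  linarith

theorem sh_succ (J k : ℕ) : sh J (k + 1) = sh J k + 1 / (J + 2) := by
  unfold sh
  push_cast
  field_simp

theorem sh_mono {J k k' : ℕ} (h : k ≤ k') : sh J k ≤ sh J k' := by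
  unfold sh
  apply div_le_div_of_nonneg_right _ (by positivity)
  have : (k : ℝ) ≤ k' := by exact_mod_cast h
  linarith

theorem gap_lt {J : ℕ} (hJ : 1 ≤ J) : (1 : ℝ) / (J + 2) < 1 / 2 := by
  have : (1 : ℝ) ≤ J := by exact_mod_cast hJ
  rw [div_lt_div_iff₀ (by positivity) (by norm_num)]
  linarith

theorem gap_pos (J : ℕ) : (0 : ℝ) < 1 / (J + 2) := by positivity

theorem off_mono {J r k k' : ℕ} (h : k ≤ k') : off J r k ≤ off J r k' := by
  have := sh_mono (J := J) h
  unfold off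
  split_ifs <;> linarith

theorem PP_mono (J : ℕ) (r k k' : ℕ) (h : k ≤ k') : PP J r k + ((k' : ℝ) - k) ≤ PP J r k' := by
  have := off_mono (J := J) (r := r) h
  unfold PP
  split_ifs <;> linarith

/-- first block -/
def TA (J : ℕ) : Finset (ℕ × ℕ) :=
  ((range 7) ×ˢ (range (J + 1))).filter
    (fun z => (z.1 = 3 ∨ z.2 < J) ∧ (z.1 = 0 ∨ z.1 = 6 → z.2 + 1 < J))

/-- second block -/
def TB (K M : ℕ) : Finset (ℕ × ℕ) := (Finset.Ico 8 (9 + 2 * K)) ×ˢ (range (2 * M + 2))

/-- both blocks, or the second one only -/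
def TT (b : Bool) (K M J : ℕ) : Finset (ℕ × ℕ) := TB K M ∪ (if b then TA J else ∅)

theorem mem_TA {J r k : ℕ} : (r, k) ∈ TA J ↔ r < 7 ∧ k < J + 1 ∧ (r = 3 ∨ k < J) ∧
    (r = 0 ∨ r = 6 → k + 1 < J) := by
  simp only [TA, Finset.mem_filter, Finset.mem_product, Finset.mem_range]
  tauto

theorem mem_TB {K M r k : ℕ} : (r, k) ∈ TB K M ↔ 8 ≤ r ∧ r < 9 + 2 * K ∧ k < 2 * M + 2 := by
  simp only [TB, Finset.mem_product, Finset.mem_Ico, Finset.mem_range]
  tauto

theorem mem_TT {b : Bool} {K M J r k : ℕ} : (r, k) ∈ TT b K M J ↔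
    (r, k) ∈ TB K M ∨ (b = true ∧ (r, k) ∈ TA J) := by
  unfold TT
  rw [Finset.mem_union]
  cases b <;> simp

theorem mem_TT_of_lt {b : Bool} {K M J r k : ℕ} (h : (r, k) ∈ TT b K M J) (hr : r < 8) :
    b = true ∧ r < 7 ∧ k < J + 1 ∧ (r = 3 ∨ k < J) ∧ (r = 0 ∨ r = 6 → k + 1 < J) := by
  rw [mem_TT, mem_TA, mem_TB] at h
  rcases h with h | h
  · omega
  · exact h

theorem mem_TT_of_ge {b : Bool} {K M J r k : ℕ} (h : (r, k) ∈ TT b K M J) (hr : 8 ≤ r) :
    r < 9 + 2 * K ∧ k < 2 * M + 2 := by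
  rw [mem_TT, mem_TA, mem_TB] at h
  rcases h with h | h
  · exact ⟨h.2.1, h.2.2⟩
  · omega

theorem PP_lt {J r k : ℕ} (hr : r < 8) : PP J r k = (k : ℝ) + off J r k - (J + 10) := by
  unfold PP; rw [if_pos hr]

theorem PP_ge {J r k : ℕ} (hr : 8 ≤ r) : PP J r k = (k : ℝ) + ((r : ℝ) - 8) / 2 := by
  unfold PP; rw [if_neg (by omega)]

/-- the rows of the first block are inside `[0, J + 1]` (up to the common shift) -/
theorem block_range {J r k : ℕ} (hr : r < 7) (h3 : r = 3 ∨ k < J) (hk : k < J + 1)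
    (h06 : r = 0 ∨ r = 6 → k + 1 < J) {α : ℝ} (h1 : PP J r k ≤ α) (h2 : α < PP J r k + 1) :
    0 ≤ α + (J + 10) ∧ α + (J + 10) < J + 1 := by
  rw [PP_lt (by omega)] at h1 h2
  have hk0 : (0 : ℝ) ≤ k := Nat.cast_nonneg k
  unfold off at h1 h2
  split_ifs at h1 h2 with ha hb
  · have : (k : ℝ) + 1 ≤ J + 1 := by exact_mod_cast hk
    constructor <;> linarith
  · have h4 := h06 hb
    have h5 : (k : ℝ) + 1 + 1 ≤ J := by exact_mod_cast h4
    have h6 := sh_lt_one (J := J) (k := k) hk
    have h7 := sh_pos J k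
    constructor <;> linarith
  · have h4 : k < J := by
      rcases h3 with h | h
      · exact absurd h ha
      · exact h
    have h5 : (k : ℝ) + 1 ≤ J := by exact_mod_cast h4
    have h6 := sh_lt_one (J := J) (k := k) hk
    have h7 := sh_pos J k
    constructor <;> linarith

theorem nvis_lt {b : Bool} {K M J : ℕ} (z z' : {z // z ∈ TT b K M J}) (hlt : z.1.1 < z'.1.1)
    (hpar : z.1.1 % 2 = z'.1.1 % 2) :
    ¬ Vis (lpos (TT b K M J) (PP J)) (lht (TT b K M J)) z z' := by
  obtain ⟨⟨r, k⟩, hz⟩ := z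
  obtain ⟨⟨r', k'⟩, hz'⟩ := z'
  simp only at hlt hpar
  apply layer_block hlt
  intro α h1 h2 h3 h4
  simp only at h1 h2 h3 h4
  rcases Nat.lt_or_ge r 8 with hr | hr
  · obtain ⟨hb, hr7, hk, hk3, hk06⟩ := mem_TT_of_lt hz hr
    have hrange := block_range hr7 hk3 hk hk06 h1 h2
    rcases Nat.lt_or_ge r' 8 with hr' | hr'
    · obtain ⟨-, hr7', hk', hk3', hk06'⟩ := mem_TT_of_lt hz' hr'
      by_cases hmid : r < 3 ∧ 3 < r'
      · -- blocked by the middle row
        refine ⟨3, ⌊α + (J + 10)⌋₊, hmid.1, hmid.2, ?_, ?_, ?_⟩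
        · rw [mem_TT, mem_TA]
          right
          have : ⌊α + ((J : ℝ) + 10)⌋₊ < J + 1 := by
            rw [Nat.floor_lt hrange.1]
            push_cast
            exact hrange.2
          refine ⟨hb, by norm_num, this, Or.inl rfl, by norm_num⟩
        · rw [PP_lt (by norm_num)]
          have := Nat.floor_le hrange.1
          simp only [off, if_true]
          linarith
        · rw [PP_lt (by norm_num)]
          have := Nat.lt_floor_add_one (α + ((J : ℝ) + 10))
          simp only [off, if_true]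
          linarith
      · have hcases : (r = 0 ∧ r' = 2) ∨ (r = 1 ∧ r' = 3) ∨ (r = 3 ∧ r' = 5) ∨
            (r = 4 ∧ r' = 6) := by omega
        rcases hcases with ⟨rfl, rfl⟩ | ⟨rfl, rfl⟩ | ⟨rfl, rfl⟩ | ⟨rfl, rfl⟩
        · refine ⟨1, k', by norm_num, by norm_num, ?_, ?_, ?_⟩
          · rw [mem_TT, mem_TA]
            right
            exact ⟨hb, by norm_num, hk', by omega, by norm_num⟩
          · rw [PP_lt (by norm_num)] at h3 ⊢
            simp only [off] at h3 ⊢
            norm_num at h3 ⊢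
            linarith
          · rw [PP_lt (by norm_num)] at h4 ⊢
            simp only [off] at h4 ⊢
            norm_num at h4 ⊢
            linarith
        · refine ⟨2, k, by norm_num, by norm_num, ?_, ?_, ?_⟩
          · rw [mem_TT, mem_TA]
            right
            exact ⟨hb, by norm_num, hk, by omega, by norm_num⟩
          · rw [PP_lt (by norm_num)] at h1 ⊢
            simp only [off] at h1 ⊢
            norm_num at h1 ⊢
            linarith
          · rw [PP_lt (by norm_num)] at h2 ⊢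
            simp only [off] at h2 ⊢
            norm_num at h2 ⊢
            linarith
        · refine ⟨4, k', by norm_num, by norm_num, ?_, ?_, ?_⟩
          · rw [mem_TT, mem_TA]
            right
            exact ⟨hb, by norm_num, hk', by omega, by norm_num⟩
          · rw [PP_lt (by norm_num)] at h3 ⊢
            simp only [off] at h3 ⊢
            norm_num at h3 ⊢
            linarith
          · rw [PP_lt (by norm_num)] at h4 ⊢
            simp only [off] at h4 ⊢
            norm_num at h4 ⊢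
            linarith
        · refine ⟨5, k, by norm_num, by norm_num, ?_, ?_, ?_⟩
          · rw [mem_TT, mem_TA]
            right
            exact ⟨hb, by norm_num, hk, by omega, by norm_num⟩
          · rw [PP_lt (by norm_num)] at h1 ⊢
            simp only [off] at h1 ⊢
            norm_num at h1 ⊢
            linarith
          · rw [PP_lt (by norm_num)] at h2 ⊢
            simp only [off] at h2 ⊢
            norm_num at h2 ⊢
            linarith
    · -- the two blocks are far apart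
      exfalso
      rw [PP_ge hr'] at h3
      have h5 : (8 : ℝ) ≤ r' := by exact_mod_cast hr'
      have h6 : (0 : ℝ) ≤ k' := Nat.cast_nonneg k'
      linarith [hrange.2]
  · obtain ⟨hrK, hk⟩ := mem_TT_of_ge hz hr
    have hr' : 8 ≤ r' := by omega
    obtain ⟨hrK', hk'⟩ := mem_TT_of_ge hz' hr'
    rw [PP_ge hr] at h1 h2
    rw [PP_ge hr'] at h3 h4
    have hr2 : r + 2 ≤ r' := by omega
    have hr2' : (r : ℝ) + 2 ≤ r' := by exact_mod_cast hr2
    have hk0 : (0 : ℝ) ≤ k' := Nat.cast_nonneg k'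
    have hkM : (k : ℝ) + 1 ≤ 2 * M + 2 := by exact_mod_cast hk
    have h5 : 0 ≤ α - ((r : ℝ) + 1 - 8) / 2 := by linarith
    have h6 : α - ((r : ℝ) + 1 - 8) / 2 < 2 * M + 2 := by linarith
    refine ⟨r + 1, ⌊α - ((r : ℝ) + 1 - 8) / 2⌋₊, by change r < r + 1; omega,
      by change r + 1 < r'; omega, ?_, ?_, ?_⟩
    · rw [mem_TT, mem_TB]
      left
      refine ⟨by omega, by omega, ?_⟩
      rw [Nat.floor_lt h5]
      push_cast
      exact h6
    · rw [PP_ge (by omega)]
      have := Nat.floor_le h5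
      push_cast
      linarith
    · rw [PP_ge (by omega)]
      have := Nat.lt_floor_add_one (α - ((r : ℝ) + 1 - 8) / 2)
      push_cast
      linarith

theorem nvis {b : Bool} {K M J : ℕ} (z z' : {z // z ∈ TT b K M J}) (hne : z ≠ z')
    (hpar : z.1.1 % 2 = z'.1.1 % 2) :
    ¬ Vis (lpos (TT b K M J) (PP J)) (lht (TT b K M J)) z z' := by
  rcases lt_trichotomy z.1.1 z'.1.1 with h | h | h
  · exact nvis_lt z z' h hpar
  · exact layer_same (PP_mono J) hne h
  · intro hv
    exact nvis_lt z' z h hpar.symm hv.symm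

theorem vis_pair {T : Finset (ℕ × ℕ)} {P : ℕ → ℕ → ℝ}
    (hP : ∀ r k k' : ℕ, k ≤ k' → P r k + ((k' : ℝ) - k) ≤ P r k')
    {r k r' k' : ℕ} (hz : (r, k) ∈ T) (hz' : (r', k') ∈ T) (hne : r ≠ r') {α β : ℝ}
    (hαβ : α < β) (h1 : P r k < α) (h2 : β < P r k + 1) (h3 : P r' k' < α)
    (h4 : β < P r' k' + 1)
    (hg : ∀ q, (r < q ∧ q < r') ∨ (r' < q ∧ q < r) → ∃ κ, P q κ + 1 < α ∧ β < P q (κ + 1)) :
    Vis (lpos T P) (lht T) ⟨(r, k), hz⟩ ⟨(r', k'), hz'⟩ := by
  rcases lt_or_gt_of_ne hne with h | h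
  · exact layer_vis hP (z := ⟨(r, k), hz⟩) (z' := ⟨(r', k'), hz'⟩) h hαβ h1 h2 h3 h4
      (fun q hq1 hq2 => hg q (Or.inl ⟨hq1, hq2⟩))
  · exact (layer_vis hP (z := ⟨(r', k'), hz'⟩) (z' := ⟨(r, k), hz⟩) h hαβ h3 h4 h1 h2
      (fun q hq1 hq2 => hg q (Or.inr ⟨hq1, hq2⟩))).symm

end Pool.Agent.R88.UB
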