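import Pool.Agent.R88.UB.Sweep

/-!
# The sweep over unit intervals
-/

set_option autoImplicit false

namespace Pool.Agent.R88.UB

open Finset

section lists

variable {B : Type} [DecidableEq B]

theorem mem_of_ap {l : List B} {a b : B} (h : (a, b) ∈ ap l) : a ∈ l ∧ b ∈ l := by
  induction l with
  | nil => simp [ap] at h
  | cons x l ih =>
    cases l with
    | nil => simp [ap] at h
    | cons y l =>
      simp only [ap, List.mem_cons] at h
      rcases h with h | h
      · rw [Prod.mk.injEq] at h
        obtain ⟨rfl, rfl⟩ := h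
        simp
      · obtain ⟨h1, h2⟩ := ih h
        exact ⟨List.mem_cons_of_mem _ h1, List.mem_cons_of_mem _ h2⟩

theorem ap_two (L1 : List B) (p q : B) (L2 : List B) :
    ap (L1 ++ p :: q :: L2) = ap (L1 ++ [p]) ++ (p, q) :: ap (q :: L2) := by
  rw [ap_append]
  simp only [ap]

theorem ap_three (L1 : List B) (p w q : B) (L2 : List B) :
    ap (L1 ++ p :: w :: q :: L2) = ap (L1 ++ [p]) ++ (p, w) :: (w, q) :: ap (q :: L2) := by
  rw [ap_append]
  simp only [ap]

end lists

section seq

variable {B V : Type} [DecidableEq B] [DecidableEq V] (vert : B → V) (sd : V → Bool)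

theorem Inv.mono {S : Finset B} {H H' : Set (B × B)} {l : List B} (h : Inv vert sd S H l)
    (hH : H' ⊆ H) : Inv vert sd S H' l := by
  obtain ⟨c, P, h1, h2, h3, h4, h5, h6⟩ := h
  exact ⟨c, P, h1, h2, fun a b hab => h3 a b (hH hab), fun a b hab => h4 a b (hH hab),
    fun a b hab => h5 a b (hH hab), h6⟩

theorem sweep_seq {K : ℕ} (l : ℕ → List B) (S : ℕ → Finset B) {b0 t0 : B}
    (hl0 : l 0 = [b0, t0]) (hS0 : S 0 = {b0, t0}) (hv : vert b0 ≠ vert t0)
    (hs : sd (vert b0) = false) (hs' : sd (vert t0) = false)
    (hstep : ∀ k < K, (∃ L1 p w q L2, l k = L1 ++ p :: q :: L2 ∧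
        l (k + 1) = L1 ++ p :: w :: q :: L2 ∧ w ∉ S k ∧ S (k + 1) = insert w (S k)) ∨
      (∃ L1 p w q L2, l k = L1 ++ p :: w :: q :: L2 ∧ l (k + 1) = L1 ++ p :: q :: L2 ∧
        S (k + 1) = S k)) :
    ∀ k ≤ K, (∀ j ≤ k, ∀ a ∈ l j, a ∈ S k) ∧
      Inv vert sd (S k) {e | ∃ j ≤ k, e ∈ ap (l j)} (l k) := by
  intro k
  induction k with
  | zero =>
    intro _
    refine ⟨?_, ?_⟩
    · intro j hj a ha
      have : j = 0 := by omega
      subst this
      rw [hl0] at ha
      rw [hS0]
      simpa using ha
    · refine ⟨id, ∅, fun _ => rfl, fun a ha => ha, ?_, ?_, ?_, ?_⟩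
      · rintro a b ⟨j, hj, hab⟩ hv'
        have : j = 0 := by omega
        subst this
        rw [hl0] at hab
        simp only [ap, List.mem_singleton, Prod.mk.injEq] at hab
        obtain ⟨rfl, rfl⟩ := hab
        exact absurd hv' hv
      · rintro a b ⟨j, hj, hab⟩ h1 h2
        have : j = 0 := by omega
        subst this
        rw [hl0] at hab
        simp only [ap, List.mem_singleton, Prod.mk.injEq] at hab
        obtain ⟨rfl, rfl⟩ := hab
        rw [hs] at h1
        exact absurd h1 (by simp)
      · rintro a b ⟨j, hj, hab⟩ h1 h2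
        have : j = 0 := by omega
        subst this
        rw [hl0] at hab
        simp only [ap, List.mem_singleton, Prod.mk.injEq] at hab
        obtain ⟨rfl, rfl⟩ := hab
        rw [hs'] at h2
        exact absurd h2 (by simp)
      · rw [hl0, hS0]
        have hne : b0 ≠ t0 := fun h => hv (by rw [h])
        have e1 : bs vert sd [b0, t0] = 2 := by
          simp [bs, ap, bw, hv, hs, hs']
        rw [e1, Finset.image_id, Finset.card_pair hne]
        simp
  | succ k ih =>
    intro hk
    obtain ⟨ih1, ih2⟩ := ih (by omega)
    have hH : ∀ a b, (a, b) ∈ {e | ∃ j ≤ k, e ∈ ap (l j)} → a ∈ S k ∧ b ∈ S k := by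
      rintro a b ⟨j, hj, hab⟩
      obtain ⟨h1, h2⟩ := mem_of_ap hab
      exact ⟨ih1 j hj a h1, ih1 j hj b h2⟩
    rcases hstep k (by omega) with ⟨L1, p, w, q, L2, h1, h2, h3, h4⟩ |
      ⟨L1, p, w, q, L2, h1, h2, h4⟩
    · refine ⟨?_, ?_⟩
      · intro j hj a ha
        rw [h4]
        rcases Nat.lt_or_ge j (k + 1) with hj' | hj'
        · exact Finset.mem_insert_of_mem (ih1 j (by omega) a ha)
        · have : j = k + 1 := by omega
          subst this
          rw [h2] at ha
          by_cases haw : a = w
          · rw [haw]; exact Finset.mem_insert_self _ _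
          · refine Finset.mem_insert_of_mem (ih1 k le_rfl a ?_)
            rw [h1]
            simp only [List.mem_append, List.mem_cons] at ha ⊢
            tauto
      · rw [h2, h4]
        have hpq : (p, q) ∈ {e | ∃ j ≤ k, e ∈ ap (l j)} := by
          refine ⟨k, le_rfl, ?_⟩
          rw [h1, ap_two]
          simp
        rw [h1] at ih2
        refine (inv_insert vert sd hH hpq h3 ih2).mono vert sd ?_
        rintro e ⟨j, hj, he⟩
        rcases Nat.lt_or_ge j (k + 1) with hj' | hj'
        · exact Or.inl ⟨j, by omega, he⟩
        · have : j = k + 1 := by omega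
          subst this
          rw [h2, ap_three] at he
          simp only [List.mem_append, List.mem_cons] at he
          rcases he with he | he | he | he
          · refine Or.inl ⟨k, le_rfl, ?_⟩
            rw [h1, ap_two]
            exact List.mem_append_left _ he
          · exact Or.inr (Or.inl he)
          · exact Or.inr (Or.inr he)
          · refine Or.inl ⟨k, le_rfl, ?_⟩
            rw [h1, ap_two]
            exact List.mem_append_right _ (List.mem_cons_of_mem _ he)
    · refine ⟨?_, ?_⟩
      · intro j hj a ha
        rw [h4]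
        rcases Nat.lt_or_ge j (k + 1) with hj' | hj'
        · exact ih1 j (by omega) a ha
        · have : j = k + 1 := by omega
          subst this
          rw [h2] at ha
          refine ih1 k le_rfl a ?_
          rw [h1]
          simp only [List.mem_append, List.mem_cons] at ha ⊢
          tauto
      · rw [h2, h4]
        have hpw : (p, w) ∈ {e | ∃ j ≤ k, e ∈ ap (l j)} := by
          refine ⟨k, le_rfl, ?_⟩
          rw [h1, ap_three]
          simp
        have hwq : (w, q) ∈ {e | ∃ j ≤ k, e ∈ ap (l j)} := by
          refine ⟨k, le_rfl, ?_⟩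
          rw [h1, ap_three]
          simp
        rw [h1] at ih2
        refine (inv_delete vert sd hH hpw hwq ih2).mono vert sd ?_
        rintro e ⟨j, hj, he⟩
        rcases Nat.lt_or_ge j (k + 1) with hj' | hj'
        · exact Or.inl ⟨j, by omega, he⟩
        · have : j = k + 1 := by omega
          subst this
          rw [h2, ap_two] at he
          simp only [List.mem_append, List.mem_cons] at he
          rcases he with he | he | he
          · refine Or.inl ⟨k, le_rfl, ?_⟩
            rw [h1, ap_three]
            exact List.mem_append_left _ he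
          · exact Or.inr he
          · refine Or.inl ⟨k, le_rfl, ?_⟩
            rw [h1, ap_three]
            exact List.mem_append_right _ (List.mem_cons_of_mem _ (List.mem_cons_of_mem _ he))

end seq

/-! ## Ranking the events -/

theorem exists_rank {E : Type} [Fintype E] (τ : E → ℝ) :
    ∃ r : E ≃ Fin (Fintype.card E), ∀ e e', r e ≤ r e' → τ e ≤ τ e' := by
  let e0 := Fintype.equivFin E
  let f : Fin (Fintype.card E) → ℝ := fun i => τ (e0.symm i)
  let σ := Tuple.sort f
  refine ⟨e0.trans σ.symm, ?_⟩
  intro e e' h
  have h1 := Tuple.monotone_sort f h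
  simpa [f, σ] using h1

theorem rank_lt_iff {E : Type} [Fintype E] (τ : E → ℝ) (r : E ≃ Fin (Fintype.card E))
    (hr : ∀ e e', r e ≤ r e' → τ e ≤ τ e') (t : ℝ) (e : E) :
    (r e : ℕ) < (univ.filter (fun e => τ e < t)).card ↔ τ e < t := by
  classical
  have h1 : ((univ.filter (fun e' => r e' < r e)).card) = (r e : ℕ) := by
    have : univ.filter (fun e' => r e' < r e) = (Finset.Iio (r e)).map r.symm.toEmbedding := by
      ext x
      simp
    rw [this, Finset.card_map, Fin.card_Iio]
  have h2 : ((univ.filter (fun e' => r e' ≤ r e)).card) = (r e : ℕ) + 1 := by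
    have : univ.filter (fun e' => r e' ≤ r e) = (Finset.Iic (r e)).map r.symm.toEmbedding := by
      ext x
      simp
    rw [this, Finset.card_map, Fin.card_Iic]
  constructor
  · intro h
    by_contra hcon
    push Not at hcon
    have hsub : univ.filter (fun e => τ e < t) ⊆ univ.filter (fun e' => r e' < r e) := by
      intro e' he'
      simp only [Finset.mem_filter, Finset.mem_univ, true_and] at he' ⊢
      by_contra hle
      push Not at hle
      have := hr e e' hle
      linarith
    have := Finset.card_le_card hsub
    omega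
  · intro h
    have hsub : univ.filter (fun e' => r e' ≤ r e) ⊆ univ.filter (fun e => τ e < t) := by
      intro e' he'
      simp only [Finset.mem_filter, Finset.mem_univ, true_and] at he' ⊢
      exact lt_of_le_of_lt (hr e' e he') h
    have := Finset.card_le_card hsub
    omega

theorem sort_insert {β : Type} [LinearOrder β] {A : Finset β} {w : β} (hw : w ∉ A) :
    ∃ M1 M2 : List β, (insert w A).sort = M1 ++ w :: M2 ∧ A.sort = M1 ++ M2 := by
  have h1 : w ∈ (insert w A).sort := by
    rw [Finset.mem_sort]
    exact Finset.mem_insert_self _ _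
  obtain ⟨M1, M2, h2⟩ := List.append_of_mem h1
  refine ⟨M1, M2, h2, ?_⟩
  have h3 : (M1 ++ w :: M2).Nodup := by rw [← h2]; exact Finset.sort_nodup _ _
  have h4 : List.Pairwise (· ≤ ·) (M1 ++ w :: M2) := by rw [← h2]; exact Finset.pairwise_sort _ _
  have hsub : (M1 ++ M2).Sublist (M1 ++ w :: M2) :=
    List.Sublist.append_left (List.sublist_cons_self w M2) M1
  have h5 : (M1 ++ M2).Nodup := h3.sublist hsub
  have h6 : List.Pairwise (· ≤ ·) (M1 ++ M2) := h4.sublist hsub
  have h7 : (M1 ++ M2).toFinset = A := by
    ext x
    rw [List.mem_toFinset]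
    have h8 : x ∈ M1 ++ w :: M2 ↔ x ∈ insert w A := by rw [← h2, Finset.mem_sort]
    rw [Finset.mem_insert] at h8
    have h9 : w ∉ M1 ++ M2 := by
      intro hcon
      rw [List.nodup_append] at h3
      obtain ⟨h10, h11, h12⟩ := h3
      rw [List.mem_append] at hcon
      rcases hcon with hcon | hcon
      · exact h12 w hcon w (List.mem_cons_self) rfl
      · rw [List.nodup_cons] at h11
        exact h11.1 hcon
    constructor
    · intro hx
      have h13 : x ∈ M1 ++ w :: M2 := hsub.subset hx
      rcases h8.1 h13 with h | h
      · rw [h] at hx; exact absurd hx h9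
      · exact h
    · intro hx
      have h13 := h8.2 (Or.inr hx)
      rw [List.mem_append, List.mem_cons] at h13
      rw [List.mem_append]
      rcases h13 with h | h | h
      · exact Or.inl h
      · rw [h] at hx; exact absurd hx hw
      · exact Or.inr h
  rw [← h7]
  exact (List.toFinset_sort _ h5).2 h6

/-- consecutive elements of a finite set are adjacent in its sorted list -/
theorem ap_sort {β : Type} [LinearOrder β] {A : Finset β} {a b : β} (ha : a ∈ A) (hb : b ∈ A)
    (hab : a < b) (hn : ∀ c ∈ A, ¬ (a < c ∧ c < b)) : (a, b) ∈ ap A.sort := by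
  have h1 : a ∈ A.sort := by rwa [Finset.mem_sort]
  obtain ⟨M1, M2, h2⟩ := List.append_of_mem h1
  have h4 : List.Pairwise (· ≤ ·) (M1 ++ a :: M2) := by rw [← h2]; exact Finset.pairwise_sort _ _
  have h5 : b ∈ M1 ++ a :: M2 := by rw [← h2, Finset.mem_sort]; exact hb
  rw [List.pairwise_append] at h4
  obtain ⟨h6, h7, h8⟩ := h4
  rw [List.mem_append, List.mem_cons] at h5
  rcases h5 with h5 | h5 | h5
  · have := h8 b h5 a List.mem_cons_self
    exact absurd this (not_le.2 hab)
  · exact absurd h5 hab.ne'
  · cases M2 with
    | nil => simp at h5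
    | cons b' M3 =>
      rw [List.pairwise_cons, List.pairwise_cons] at h7
      have hb' : b' ∈ A := by
        rw [← Finset.mem_sort (r := (· ≤ ·)), h2]
        simp
      have hab' : a ≤ b' := h7.1 b' List.mem_cons_self
      have hnd : (M1 ++ a :: b' :: M3).Nodup := by rw [← h2]; exact Finset.sort_nodup _ _
      have hne : a ≠ b' := by
        rintro rfl
        rw [List.nodup_append] at hnd
        have := hnd.2.1
        rw [List.nodup_cons] at this
        exact this.1 List.mem_cons_self
      have hb'b : b' ≤ b := by
        rw [List.mem_cons] at h5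
        rcases h5 with h5 | h5
        · exact h5.ge
        · exact h7.2.1 b h5
      have : b' = b := by
        by_contra hne'
        exact hn b' hb' ⟨lt_of_le_of_ne hab' hne, lt_of_le_of_ne hb'b hne'⟩
      rw [h2, this, ap_two]
      simp

end Pool.Agent.R88.UB
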