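import Pool.Agent.R88.UB.Rep

/-!
# Representations from families of bars arranged in layers
-/

set_option autoImplicit false

namespace Pool.Agent.R88.UB

open Finset
open scoped Classical

/-- visibility in an indexed family of bars -/
def Vis {ι : Type} (pos ht : ι → ℝ) (i j : ι) : Prop :=
  ∃ α β : ℝ, α < β ∧ pos i ≤ α ∧ β ≤ pos i + 1 ∧ pos j ≤ α ∧ β ≤ pos j + 1 ∧
    ∀ k, k ≠ i → k ≠ j →
      ¬ (pos k ≤ β ∧ α ≤ pos k + 1 ∧ min (ht i) (ht j) ≤ ht k ∧ ht k ≤ max (ht i) (ht j))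

theorem Vis.symm {ι : Type} {pos ht : ι → ℝ} {i j : ι} (h : Vis pos ht i j) : Vis pos ht j i := by
  obtain ⟨α, β, h1, h2, h3, h4, h5, h6⟩ := h
  refine ⟨α, β, h1, h4, h5, h2, h3, ?_⟩
  intro k hk hk'
  rw [min_comm, max_comm]
  exact h6 k hk' hk

theorem rep_of_family {ι : Type} [Fintype ι] {m n t : ℕ} (pos ht : ι → ℝ)
    (lab : ι → Fin m ⊕ Fin n)
    (hd : ∀ i j, i ≠ j → ht i = ht j → 1 < |pos i - pos j|)
    (hn : ∀ i j, lab i ≠ lab j → (lab i).isLeft = (lab j).isLeft → ¬ Vis pos ht i j)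
    (hc : ∀ x y, ∃ i j, lab i = Sum.inl x ∧ lab j = Sum.inr y ∧ Vis pos ht i j)
    (hcard : ∀ v, (univ.filter (fun i => lab i = v)).card ≤ t) :
    ∃ R, IsRep (completeBipartiteGraph (Fin m) (Fin n)) t R := by
  let f : ι → ℝ × ℝ := fun i => (pos i, ht i)
  have hinj : Function.Injective f := by
    intro i j hij
    by_contra hne
    have h1 := hd i j hne (Prod.mk.inj hij).2
    rw [(Prod.mk.inj hij).1] at h1
    norm_num at h1
  let R : Fin m ⊕ Fin n → Finset (ℝ × ℝ) := fun v => (univ.filter (fun i => lab i = v)).image f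
  have hR : ∀ v p, p ∈ R v ↔ ∃ i, lab i = v ∧ f i = p := by
    intro v p
    simp only [R, Finset.mem_image, Finset.mem_filter, Finset.mem_univ, true_and]
  have hD : ∀ r, r ∈ {r | ∃ u, r ∈ R u} ↔ ∃ i, f i = r := by
    intro r
    constructor
    · rintro ⟨u, hu⟩
      obtain ⟨i, -, hi⟩ := (hR u r).1 hu
      exact ⟨i, hi⟩
    · rintro ⟨i, hi⟩
      exact ⟨lab i, (hR _ _).2 ⟨i, rfl, hi⟩⟩
  have hJ : ∀ i j, Joined {r | ∃ u, r ∈ R u} (f i) (f j) ↔ Vis pos ht i j := by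
    intro i j
    constructor
    · rintro ⟨α, β, h1, h2, h3, h4, h5, h6⟩
      refine ⟨α, β, h1, h2, h3, h4, h5, ?_⟩
      rintro k hki hkj ⟨h7, h8, h9, h10⟩
      have h11 := h6 (f k) ((hD _).2 ⟨k, rfl⟩) (fun h => hki (hinj h)) (fun h => hkj (hinj h))
      rw [Set.disjoint_left] at h11
      refine h11 (a := (max (pos k) α, ht k)) ⟨le_max_left _ _, ?_, rfl⟩
        ⟨le_max_right _ _, ?_, h9, h10⟩
      · exact max_le (by linarith) h8
      · exact max_le h7 h1.le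
    · rintro ⟨α, β, h1, h2, h3, h4, h5, h6⟩
      refine ⟨α, β, h1, h2, h3, h4, h5, ?_⟩
      rintro r hr hri hrj
      obtain ⟨k, rfl⟩ := (hD r).1 hr
      have hki : k ≠ i := fun h => hri (by rw [h])
      have hkj : k ≠ j := fun h => hrj (by rw [h])
      rw [Set.disjoint_left]
      rintro z ⟨h7, h8, h9⟩ ⟨h10, h11, h12, h13⟩
      rw [h9] at h12 h13
      exact h6 k hki hkj ⟨h7.trans h11, h10.trans h8, h12, h13⟩
  refine ⟨R, ?_, ?_, ?_⟩
  · intro v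
    exact Finset.card_image_le.trans (hcard v)
  · intro v w p hp q hq hne
    obtain ⟨i, hi, rfl⟩ := (hR v p).1 hp
    obtain ⟨j, hj, rfl⟩ := (hR w q).1 hq
    have hij : i ≠ j := by
      rintro rfl
      apply hne
      rw [← hi, ← hj]
    rw [Set.disjoint_left]
    rintro z ⟨h1, h2, h3⟩ ⟨h4, h5, h6⟩
    have h7 := hd i j hij (h3.symm.trans h6)
    simp only [f] at h1 h2 h4 h5
    rw [lt_abs] at h7
    rcases h7 with h7 | h7 <;> linarith
  · intro v w hvw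
    constructor
    · intro hadj
      rcases v with x | y <;> rcases w with x' | y'
      · simp at hadj
      · obtain ⟨i, j, hi, hj, hv⟩ := hc x y'
        exact ⟨f i, (hR _ _).2 ⟨i, hi, rfl⟩, f j, (hR _ _).2 ⟨j, hj, rfl⟩, (hJ i j).2 hv⟩
      · obtain ⟨i, j, hi, hj, hv⟩ := hc x' y
        exact ⟨f j, (hR _ _).2 ⟨j, hj, rfl⟩, f i, (hR _ _).2 ⟨i, hi, rfl⟩, (hJ j i).2 hv.symm⟩
      · simp at hadj
    · rintro ⟨p, hp, q, hq, hpq⟩
      obtain ⟨i, hi, rfl⟩ := (hR v p).1 hp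
      obtain ⟨j, hj, rfl⟩ := (hR w q).1 hq
      have h1 := (hJ i j).1 hpq
      have h2 : (lab i).isLeft ≠ (lab j).isLeft := by
        intro h3
        exact hn i j (by rw [hi, hj]; exact hvw) h3 h1
      rw [hi, hj] at h2
      rcases v with x | y <;> rcases w with x' | y'
      · exact absurd rfl h2
      · simp
      · simp
      · exact absurd rfl h2

section layers

variable {T : Finset (ℕ × ℕ)} {P : ℕ → ℕ → ℝ}

/-- position of a bar in a layered family -/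
def lpos (T : Finset (ℕ × ℕ)) (P : ℕ → ℕ → ℝ) (z : {z // z ∈ T}) : ℝ := P z.1.1 z.1.2

/-- height of a bar in a layered family -/
noncomputable def lht (T : Finset (ℕ × ℕ)) (z : {z // z ∈ T}) : ℝ :=
  2 * (z.1.1 : ℝ) + ((z.1.2 % 2 : ℕ) : ℝ)

theorem lht_bounds (z : {z // z ∈ T}) : 2 * (z.1.1 : ℝ) ≤ lht T z ∧ lht T z ≤ 2 * (z.1.1 : ℝ) + 1 := by
  unfold lht
  have h1 : z.1.2 % 2 ≤ 1 := by omega
  have h2 : ((z.1.2 % 2 : ℕ) : ℝ) ≤ 1 := by exact_mod_cast h1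
  have h3 : (0 : ℝ) ≤ ((z.1.2 % 2 : ℕ) : ℝ) := Nat.cast_nonneg _
  constructor <;> linarith

theorem lht_lt {z z' : {z // z ∈ T}} (h : z.1.1 < z'.1.1) : lht T z < lht T z' := by
  have h1 := (lht_bounds z).2
  have h2 := (lht_bounds z').1
  have h3 : (z.1.1 : ℝ) + 1 ≤ z'.1.1 := by exact_mod_cast h
  linarith

theorem layer_disj (hP : ∀ r k k' : ℕ, k ≤ k' → P r k + ((k' : ℝ) - k) ≤ P r k')
    (z z' : {z // z ∈ T}) (hne : z ≠ z') (hh : lht T z = lht T z') :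
    1 < |lpos T P z - lpos T P z'| := by
  have hrow : z.1.1 = z'.1.1 := by
    rcases lt_trichotomy z.1.1 z'.1.1 with h | h | h
    · exact absurd hh (lht_lt h).ne
    · exact h
    · exact absurd hh (lht_lt h).ne'
  have hmod : z.1.2 % 2 = z'.1.2 % 2 := by
    unfold lht at hh
    rw [hrow] at hh
    have : ((z.1.2 % 2 : ℕ) : ℝ) = ((z'.1.2 % 2 : ℕ) : ℝ) := by linarith
    exact_mod_cast this
  have hk : z.1.2 ≠ z'.1.2 := by
    intro h
    exact hne (Subtype.ext (Prod.ext hrow h))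
  unfold lpos
  rw [hrow, lt_abs]
  rcases lt_or_gt_of_ne hk with h | h
  · right
    have h1 := hP z'.1.1 _ _ h.le
    have h2 : z.1.2 + 2 ≤ z'.1.2 := by omega
    have h3 : (z.1.2 : ℝ) + 2 ≤ z'.1.2 := by exact_mod_cast h2
    linarith
  · left
    have h1 := hP z'.1.1 _ _ h.le
    have h2 : z'.1.2 + 2 ≤ z.1.2 := by omega
    have h3 : (z'.1.2 : ℝ) + 2 ≤ z.1.2 := by exact_mod_cast h2
    linarith

theorem layer_same (hP : ∀ r k k' : ℕ, k ≤ k' → P r k + ((k' : ℝ) - k) ≤ P r k')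
    {z z' : {z // z ∈ T}} (hne : z ≠ z') (hrow : z.1.1 = z'.1.1) :
    ¬ Vis (lpos T P) (lht T) z z' := by
  rintro ⟨α, β, h1, h2, h3, h4, h5, -⟩
  have hk : z.1.2 ≠ z'.1.2 := fun h => hne (Subtype.ext (Prod.ext hrow h))
  unfold lpos at h2 h3 h4 h5
  rw [hrow] at h2 h3
  rcases lt_or_gt_of_ne hk with h | h
  · have h6 := hP z'.1.1 _ _ h.le
    have h7 : (z.1.2 : ℝ) + 1 ≤ z'.1.2 := by exact_mod_cast h
    linarith
  · have h6 := hP z'.1.1 _ _ h.le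
    have h7 : (z'.1.2 : ℝ) + 1 ≤ z.1.2 := by exact_mod_cast h
    linarith

/-- non-visibility by blocking -/
theorem layer_block {z z' : {z // z ∈ T}} (hlt : z.1.1 < z'.1.1)
    (h : ∀ α : ℝ, P z.1.1 z.1.2 ≤ α → α < P z.1.1 z.1.2 + 1 → P z'.1.1 z'.1.2 ≤ α →
      α < P z'.1.1 z'.1.2 + 1 → ∃ r k : ℕ, z.1.1 < r ∧ r < z'.1.1 ∧ (r, k) ∈ T ∧ P r k ≤ α ∧
        α ≤ P r k + 1) :
    ¬ Vis (lpos T P) (lht T) z z' := by
  rintro ⟨α, β, h1, h2, h3, h4, h5, h6⟩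
  unfold lpos at h2 h3 h4 h5
  obtain ⟨r, k, hr1, hr2, hT, h7, h8⟩ := h α h2 (by linarith) h4 (by linarith)
  have hlt1 : lht T z < lht T ⟨(r, k), hT⟩ := lht_lt hr1
  have hlt2 : lht T ⟨(r, k), hT⟩ < lht T z' := lht_lt hr2
  refine h6 ⟨(r, k), hT⟩ ?_ ?_ ⟨?_, h8, ?_, ?_⟩
  · intro h; rw [h] at hlt1; exact lt_irrefl _ hlt1
  · intro h; rw [h] at hlt2; exact lt_irrefl _ hlt2
  · exact le_trans h7 h1.le
  · exact (min_le_left _ _).trans hlt1.le
  · exact hlt2.le.trans (le_max_right _ _)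

/-- visibility through gaps -/
theorem layer_vis (hP : ∀ r k k' : ℕ, k ≤ k' → P r k + ((k' : ℝ) - k) ≤ P r k')
    {z z' : {z // z ∈ T}} (hlt : z.1.1 < z'.1.1) {α β : ℝ} (hαβ : α < β)
    (h1 : P z.1.1 z.1.2 < α) (h2 : β < P z.1.1 z.1.2 + 1) (h3 : P z'.1.1 z'.1.2 < α)
    (h4 : β < P z'.1.1 z'.1.2 + 1)
    (hg : ∀ r, z.1.1 < r → r < z'.1.1 → ∃ k, P r k + 1 < α ∧ β < P r (k + 1)) :
    Vis (lpos T P) (lht T) z z' := by
  have hz : lht T z < lht T z' := lht_lt hlt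
  refine ⟨α, β, hαβ, h1.le, h2.le, h3.le, h4.le, ?_⟩
  rintro w hwz hwz' ⟨h5, h6, h7, h8⟩
  rw [min_eq_left hz.le] at h7
  rw [max_eq_right hz.le] at h8
  unfold lpos at h5 h6
  have row : ∀ u : {z // z ∈ T}, w ≠ u → w.1.1 = u.1.1 → P u.1.1 u.1.2 < α →
      β < P u.1.1 u.1.2 + 1 → False := by
    intro u hwu hrow hu1 hu2
    have hk : w.1.2 ≠ u.1.2 := fun h => hwu (Subtype.ext (Prod.ext hrow h))
    rw [hrow] at h5 h6
    rcases lt_or_gt_of_ne hk with h | h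
    · have h9 := hP u.1.1 _ _ h.le
      have h10 : (w.1.2 : ℝ) + 1 ≤ u.1.2 := by exact_mod_cast h
      linarith
    · have h9 := hP u.1.1 _ _ h.le
      have h10 : (u.1.2 : ℝ) + 1 ≤ w.1.2 := by exact_mod_cast h
      linarith
  rcases lt_trichotomy w.1.1 z.1.1 with h | h | h
  · have := lht_lt (T := T) (z := w) (z' := z) h
    linarith
  · exact row z hwz h h1 h2
  rcases lt_trichotomy w.1.1 z'.1.1 with h' | h' | h'
  · obtain ⟨k, hk1, hk2⟩ := hg _ h h'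
    rcases Nat.lt_or_ge k w.1.2 with h9 | h9
    · have h10 := hP w.1.1 (k + 1) w.1.2 h9
      have h11 : ((k + 1 : ℕ) : ℝ) ≤ w.1.2 := by exact_mod_cast h9
      linarith
    · have h10 := hP w.1.1 w.1.2 k h9
      have h11 : (w.1.2 : ℝ) ≤ k := by exact_mod_cast h9
      linarith
  · exact row z' hwz' h' h3 h4
  · have := lht_lt (T := T) (z := z') (z' := w) h'
    linarith

end layers

end Pool.Agent.R88.UB
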