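import Pool.Agent.R88.UB.Core

/-!
# The counting theorem for unit intervals in linearly ordered columns
-/

set_option autoImplicit false

namespace Pool.Agent.R88.UB

open Finset
open scoped Classical

section main

variable {β V : Type} [Fintype β] [LinearOrder β] (vert : β → V) (sd : V → Bool) (l : β → ℝ)

/-- event times: `(a, false)` is the left end, `(a, true)` the right end of `a` -/
noncomputable def tau (e : β × Bool) : ℝ := if e.2 then l e.1 + 1 else l e.1

/-- the column at `t` -/
noncomputable def col (t : ℝ) : Finset β := univ.filter (fun a => l a < t ∧ t < l a + 1)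

/-- `t` is not an end of an interval -/
def Gen (t : ℝ) : Prop := ∀ a, t ≠ l a ∧ t ≠ l a + 1

/-- `a` and `b` are consecutive in the column at `t` -/
def Cons (t : ℝ) (a b : β) : Prop :=
  a ∈ col l t ∧ b ∈ col l t ∧ a < b ∧ ∀ c ∈ col l t, ¬ (a < c ∧ c < b)

/-- add sentinels -/
def ex (L : List β) : List (β ⊕ Bool) := Sum.inr false :: (L.map Sum.inl ++ [Sum.inr true])

/-- vertices with sentinels -/
def vert' : β ⊕ Bool → V ⊕ Bool := Sum.map vert id

/-- sides with sentinels -/
def sd' : V ⊕ Bool → Bool := Sum.elim sd (fun _ => false)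

theorem ex_split (M1 M2 : List β) (w : β) :
    ∃ (L1 : List (β ⊕ Bool)) (p q : β ⊕ Bool) (L2 : List (β ⊕ Bool)),
      ex (M1 ++ M2) = L1 ++ p :: q :: L2 ∧ ex (M1 ++ w :: M2) = L1 ++ p :: Sum.inl w :: q :: L2 := by
  obtain ⟨L1, p, h1⟩ : ∃ L1 p, (Sum.inr false : β ⊕ Bool) :: M1.map Sum.inl = L1 ++ [p] := by
    rcases List.eq_nil_or_concat' ((Sum.inr false : β ⊕ Bool) :: M1.map Sum.inl) with h | h
    · exact absurd h (List.cons_ne_nil _ _)
    · obtain ⟨L, b, hL⟩ := h
      exact ⟨L, b, hL⟩
  obtain ⟨q, L2, h2⟩ : ∃ q L2, (M2.map Sum.inl ++ [Sum.inr true] : List (β ⊕ Bool)) = q :: L2 := by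
    cases M2 with
    | nil => exact ⟨Sum.inr true, [], by simp⟩
    | cons x M2 => exact ⟨Sum.inl x, M2.map Sum.inl ++ [Sum.inr true], by simp⟩
  refine ⟨L1, p, q, L2, ?_, ?_⟩
  · calc ex (M1 ++ M2) = ((Sum.inr false : β ⊕ Bool) :: M1.map Sum.inl) ++
        (M2.map Sum.inl ++ [Sum.inr true]) := by simp [ex]
      _ = (L1 ++ [p]) ++ (q :: L2) := by rw [h1, h2]
      _ = _ := by simp
  · calc ex (M1 ++ w :: M2) = ((Sum.inr false : β ⊕ Bool) :: M1.map Sum.inl) ++
        Sum.inl w :: (M2.map Sum.inl ++ [Sum.inr true]) := by simp [ex]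
      _ = (L1 ++ [p]) ++ Sum.inl w :: (q :: L2) := by rw [h1, h2]
      _ = _ := by simp

theorem sweep_main : ∃ (c : β ⊕ Bool → β ⊕ Bool) (P : Finset ((β ⊕ Bool) × (β ⊕ Bool))),
    (∀ a, vert' vert (c a) = vert' vert a) ∧
    (∀ t, Gen l t → ∀ a b, (a, b) ∈ ap (ex (col l t).sort) →
      (vert' vert a = vert' vert b → c a = c b) ∧
      (sd' sd (vert' vert a) = true → sd' sd (vert' vert b) = false → (c a, c b) ∈ P) ∧
      (sd' sd (vert' vert a) = false → sd' sd (vert' vert b) = true → (c b, c a) ∈ P)) ∧
    P.card + 4 ≤ 2 * (univ.image c).card := by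
  obtain ⟨r, hr⟩ := exists_rank (tau l)
  have hrt : ∀ a, r (a, false) < r (a, true) := by
    intro a
    by_contra hcon
    push Not at hcon
    have := hr _ _ hcon
    simp only [tau] at this
    norm_num at this
  let A : ℕ → Finset β := fun k =>
    univ.filter (fun a => (r (a, false) : ℕ) < k ∧ k ≤ (r (a, true) : ℕ))
  let L : ℕ → List (β ⊕ Bool) := fun k => ex (A k).sort
  let S : ℕ → Finset (β ⊕ Bool) := fun k =>
    (univ.filter (fun a => (r (a, false) : ℕ) < k)).image Sum.inl ∪ {Sum.inr false, Sum.inr true}
  have hA0 : A 0 = ∅ := by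
    simp [A]
  have hAN : A (Fintype.card (β × Bool)) = ∅ := by
    apply Finset.filter_false_of_mem
    rintro a - ⟨-, h⟩
    have := (r (a, true)).2
    omega
  have hL0 : L 0 = [Sum.inr false, Sum.inr true] := by
    simp only [L, hA0, Finset.sort_empty]
    rfl
  have hLN : L (Fintype.card (β × Bool)) = [Sum.inr false, Sum.inr true] := by
    simp only [L, hAN, Finset.sort_empty]
    rfl
  have hS0 : S 0 = {Sum.inr false, Sum.inr true} := by
    simp [S]
  have hstep : ∀ k < Fintype.card (β × Bool),
      (∃ L1 p w q L2, L k = L1 ++ p :: q :: L2 ∧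
        L (k + 1) = L1 ++ p :: w :: q :: L2 ∧ w ∉ S k ∧ S (k + 1) = insert w (S k)) ∨
      (∃ L1 p w q L2, L k = L1 ++ p :: w :: q :: L2 ∧ L (k + 1) = L1 ++ p :: q :: L2 ∧
        S (k + 1) = S k) := by
    intro k hk
    obtain ⟨⟨w, b⟩, hw⟩ : ∃ e, r e = ⟨k, hk⟩ := ⟨r.symm ⟨k, hk⟩, by simp⟩
    have hval : ∀ e, (r e : ℕ) = k → e = (w, b) := by
      intro e he
      apply r.injective
      rw [hw]
      exact Fin.ext he
    cases b with
    | false =>
      left
      have hk1 : (r (w, false) : ℕ) = k := by rw [hw]
      have hk2 : k < (r (w, true) : ℕ) := by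
        have := hrt w
        rw [Fin.lt_def] at this
        omega
      have hne : ∀ a, (r (a, true) : ℕ) ≠ k := by
        intro a h
        have := hval _ h
        simp at this
      have hne' : ∀ a, a ≠ w → (r (a, false) : ℕ) ≠ k := by
        intro a ha h
        have := hval _ h
        simp at this
        exact ha this
      have hAw : w ∉ A k := by
        simp only [A, Finset.mem_filter, Finset.mem_univ, true_and, not_and]
        intro h
        omega
      have hAk : A (k + 1) = insert w (A k) := by
        ext a
        simp only [A, Finset.mem_filter, Finset.mem_univ, true_and, Finset.mem_insert]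
        by_cases ha : a = w
        · subst ha
          simp
          omega
        · have h1 := hne a
          have h2 := hne' a ha
          simp only [ha, false_or]
          omega
      obtain ⟨M1, M2, h1, h2⟩ := sort_insert hAw
      obtain ⟨L1, p, q, L2, h3, h4⟩ := ex_split M1 M2 w
      refine ⟨L1, p, Sum.inl w, q, L2, ?_, ?_, ?_, ?_⟩
      · simp only [L]
        rw [h2, h3]
      · simp only [L]
        rw [hAk, h1, h4]
      · simp only [S, Finset.mem_union, Finset.mem_image, Finset.mem_filter, Finset.mem_univ,
          true_and, Finset.mem_insert, Finset.mem_singleton]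
        rintro (⟨a, ha, haw⟩ | h | h)
        · have := Sum.inl.inj haw
          rw [this] at ha
          omega
        · exact absurd h (by simp)
        · exact absurd h (by simp)
      · ext z
        simp only [S, Finset.mem_union, Finset.mem_image, Finset.mem_filter, Finset.mem_univ,
          true_and, Finset.mem_insert, Finset.mem_singleton]
        constructor
        · rintro (⟨a, ha, rfl⟩ | h)
          · by_cases haw : a = w
            · left; rw [haw]
            · right; left
              exact ⟨a, by have := hne' a haw; omega, rfl⟩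
          · exact Or.inr (Or.inr h)
        · rintro (rfl | ⟨a, ha, rfl⟩ | h)
          · left
            exact ⟨w, by omega, rfl⟩
          · left
            exact ⟨a, by omega, rfl⟩
          · exact Or.inr h
    | true =>
      right
      have hk1 : (r (w, true) : ℕ) = k := by rw [hw]
      have hk2 : (r (w, false) : ℕ) < k := by
        have := hrt w
        rw [Fin.lt_def] at this
        omega
      have hne : ∀ a, (r (a, false) : ℕ) ≠ k := by
        intro a h
        have := hval _ h
        simp at this
      have hne' : ∀ a, a ≠ w → (r (a, true) : ℕ) ≠ k := by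
        intro a ha h
        have := hval _ h
        simp at this
        exact ha this
      have hAw : w ∉ A (k + 1) := by
        simp only [A, Finset.mem_filter, Finset.mem_univ, true_and, not_and]
        intro h
        omega
      have hAk : A k = insert w (A (k + 1)) := by
        ext a
        simp only [A, Finset.mem_filter, Finset.mem_univ, true_and, Finset.mem_insert]
        by_cases ha : a = w
        · subst ha
          simp
          omega
        · have h1 := hne a
          have h2 := hne' a ha
          simp only [ha, false_or]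
          omega
      obtain ⟨M1, M2, h1, h2⟩ := sort_insert hAw
      obtain ⟨L1, p, q, L2, h3, h4⟩ := ex_split M1 M2 w
      refine ⟨L1, p, Sum.inl w, q, L2, ?_, ?_, ?_⟩
      · simp only [L]
        rw [hAk, h1, h4]
      · simp only [L]
        rw [h2, h3]
      · ext z
        simp only [S, Finset.mem_union, Finset.mem_image, Finset.mem_filter, Finset.mem_univ,
          true_and, Finset.mem_insert, Finset.mem_singleton]
        constructor
        · rintro (⟨a, ha, rfl⟩ | h)
          · left
            exact ⟨a, by have := hne a; omega, rfl⟩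
          · exact Or.inr h
        · rintro (⟨a, ha, rfl⟩ | h)
          · left
            exact ⟨a, by omega, rfl⟩
          · exact Or.inr h
  have hSN : S (Fintype.card (β × Bool)) = univ := by
    apply Finset.eq_univ_of_forall
    intro z
    simp only [S, Finset.mem_union, Finset.mem_image, Finset.mem_filter, Finset.mem_univ,
          true_and, Finset.mem_insert, Finset.mem_singleton]
    rcases z with a | b
    · left
      exact ⟨a, (r (a, false)).2, rfl⟩
    · right
      cases b <;> simp
  obtain ⟨-, c, P, h1, h2, h3, h4, h5, h6⟩ := sweep_seq (vert' vert) (sd' sd) L S hL0 hS0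
    (by simp [vert']) (by simp [vert', sd']) (by simp [vert', sd']) hstep
    (Fintype.card (β × Bool)) le_rfl
  refine ⟨c, P, h1, ?_, ?_⟩
  · intro t ht a b hab
    have hmem : (a, b) ∈ {e | ∃ j ≤ Fintype.card (β × Bool), e ∈ ap (L j)} := by
      refine ⟨(univ.filter (fun e => tau l e < t)).card, Finset.card_le_univ _, ?_⟩
      have hcol : A (univ.filter (fun e => tau l e < t)).card = col l t := by
        ext a
        simp only [A, col, Finset.mem_filter, Finset.mem_univ, true_and]
        rw [rank_lt_iff (tau l) r hr t (a, false), ← not_lt,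
          rank_lt_iff (tau l) r hr t (a, true)]
        simp only [tau]
        simp only [Bool.false_eq_true, if_false, if_true, not_lt]
        constructor
        · rintro ⟨h7, h8⟩
          exact ⟨h7, lt_of_le_of_ne h8 (ht a).2⟩
        · rintro ⟨h7, h8⟩
          exact ⟨h7, h8.le⟩
      simp only [L]
      rw [hcol]
      exact hab
    exact ⟨h3 a b hmem, h4 a b hmem, h5 a b hmem⟩
  · rw [hLN, hSN] at h6
    have e1 : bs (vert' vert) (sd' sd) [Sum.inr false, Sum.inr true] = 2 := by
      simp [bs, ap, bw, vert', sd']
    rw [e1] at h6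
    omega

end main

/-! ## Adjacent pairs of the extended lists -/

section aplemmas

variable {B B' : Type}

theorem ap_map (f : B → B') (L : List B) : ap (L.map f) = (ap L).map (Prod.map f f) := by
  induction L with
  | nil => simp [ap]
  | cons a L ih =>
    cases L with
    | nil => simp [ap]
    | cons b L =>
      simp only [List.map_cons, ap] at ih ⊢
      rw [ih]
      rfl

theorem ap_cons_mem {L : List B} {x : B} {e : B × B} (h : e ∈ ap L) : e ∈ ap (x :: L) := by
  cases L with
  | nil => simp [ap] at h
  | cons b L => exact List.mem_cons_of_mem _ h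

theorem ap_append_mem {L L' : List B} {e : B × B} (h : e ∈ ap L) : e ∈ ap (L ++ L') := by
  induction L with
  | nil => simp [ap] at h
  | cons a L ih =>
    cases L with
    | nil => simp [ap] at h
    | cons b L =>
      simp only [ap, List.mem_cons, List.cons_append] at h ih ⊢
      rcases h with h | h
      · exact Or.inl h
      · exact Or.inr (ih h)

theorem ap_ex {L : List B} {a b : B} (h : (a, b) ∈ ap L) :
    ((Sum.inl a : B ⊕ Bool), (Sum.inl b : B ⊕ Bool)) ∈ ap (ex L) := by
  unfold ex
  apply ap_cons_mem
  apply ap_append_mem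
  rw [ap_map]
  exact List.mem_map.2 ⟨(a, b), h, rfl⟩

end aplemmas

section ends

variable {β : Type} [LinearOrder β]

theorem ap_ex_top {A : Finset β} {a : β} (ha : a ∈ A) (hn : ∀ c ∈ A, ¬ a < c) :
    ((Sum.inl a : β ⊕ Bool), (Sum.inr true : β ⊕ Bool)) ∈ ap (ex A.sort) := by
  have h1 : a ∈ A.sort := by rwa [Finset.mem_sort]
  obtain ⟨M1, M2, h2⟩ := List.append_of_mem h1
  have h4 : List.Pairwise (· ≤ ·) (M1 ++ a :: M2) := by rw [← h2]; exact Finset.pairwise_sort _ _
  have hnd : (M1 ++ a :: M2).Nodup := by rw [← h2]; exact Finset.sort_nodup _ _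
  have hM2 : M2 = [] := by
    cases M2 with
    | nil => rfl
    | cons b M3 =>
      exfalso
      have hb : b ∈ A := by
        rw [← Finset.mem_sort (r := (· ≤ ·)), h2]
        simp
      rw [List.pairwise_append] at h4
      have h5 := h4.2.1
      rw [List.pairwise_cons] at h5
      have h6 := h5.1 b List.mem_cons_self
      rw [List.nodup_append] at hnd
      have h7 := hnd.2.1
      rw [List.nodup_cons] at h7
      have hne : a ≠ b := by
        rintro rfl
        exact h7.1 List.mem_cons_self
      exact hn b hb (lt_of_le_of_ne h6 hne)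
  subst hM2
  have h3 : ex A.sort = ((Sum.inr false : β ⊕ Bool) :: M1.map Sum.inl) ++
      Sum.inl a :: Sum.inr true :: [] := by
    rw [h2]
    simp [ex]
  rw [h3, ap_two]
  simp

theorem ap_ex_bot {A : Finset β} {a : β} (ha : a ∈ A) (hn : ∀ c ∈ A, ¬ c < a) :
    ((Sum.inr false : β ⊕ Bool), (Sum.inl a : β ⊕ Bool)) ∈ ap (ex A.sort) := by
  have h1 : a ∈ A.sort := by rwa [Finset.mem_sort]
  obtain ⟨M1, M2, h2⟩ := List.append_of_mem h1
  have h4 : List.Pairwise (· ≤ ·) (M1 ++ a :: M2) := by rw [← h2]; exact Finset.pairwise_sort _ _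
  have hnd : (M1 ++ a :: M2).Nodup := by rw [← h2]; exact Finset.sort_nodup _ _
  have hM1 : M1 = [] := by
    cases M1 with
    | nil => rfl
    | cons b M3 =>
      exfalso
      have hb : b ∈ A := by
        rw [← Finset.mem_sort (r := (· ≤ ·)), h2]
        simp
      rw [List.pairwise_append] at h4
      have h6 := h4.2.2 b List.mem_cons_self a List.mem_cons_self
      rw [List.nodup_append] at hnd
      have h7 := hnd.2.2 b List.mem_cons_self a List.mem_cons_self
      exact hn b hb (lt_of_le_of_ne h6 h7)
  subst hM1
  rw [h2]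
  simp [ex, ap]

end ends

section count

variable {β V : Type} [Fintype β] [LinearOrder β] [Fintype V] (vert : β → V) (sd : V → Bool)
  (l : β → ℝ)

theorem exists_theta : ∃ θ : ℝ, ∀ (a : β) (k : ℤ), l a ≠ θ + k := by
  obtain ⟨θ, h1, h2⟩ := (Set.Ioo_infinite (zero_lt_one (α := ℝ))).exists_notMem_finset
    (univ.image (fun a => Int.fract (l a)))
  refine ⟨θ, ?_⟩
  intro a k h
  apply h2
  rw [Finset.mem_image]
  refine ⟨a, mem_univ _, ?_⟩
  rw [h, Int.fract_add_intCast, Int.fract_eq_self]
  exact ⟨h1.1.le, h1.2⟩

/-- the column time of `a` -/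
noncomputable def ct (θ : ℝ) (a : β) : ℝ := θ + ⌈l a - θ⌉

variable {l}

theorem mem_col_ct {θ : ℝ} (hθ : ∀ (a : β) (k : ℤ), l a ≠ θ + k) (a : β) :
    a ∈ col l (ct l θ a) := by
  simp only [col, Finset.mem_filter, Finset.mem_univ, true_and, ct]
  have h1 := Int.le_ceil (l a - θ)
  have h2 := Int.ceil_lt_add_one (l a - θ)
  have h3 := hθ a ⌈l a - θ⌉
  constructor
  · exact lt_of_le_of_ne (by linarith) h3
  · linarith

theorem gen_ct {θ : ℝ} (hθ : ∀ (a : β) (k : ℤ), l a ≠ θ + k) (a : β) : Gen l (ct l θ a) := by
  intro b
  unfold ct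
  constructor
  · exact (hθ b _).symm
  · intro h
    apply hθ b (⌈l a - θ⌉ - 1)
    push_cast
    linarith

theorem ct_eq {θ : ℝ} {a b : β} (h : b ∈ col l (ct l θ a)) : ct l θ b = ct l θ a := by
  simp only [col, Finset.mem_filter, Finset.mem_univ, true_and] at h
  obtain ⟨h1, h2⟩ := h
  have h3 : ⌈l b - θ⌉ = ⌈l a - θ⌉ := by
    rw [Int.ceil_eq_iff]
    unfold ct at h1 h2
    constructor
    · linarith
    · linarith
  unfold ct
  rw [h3]

theorem count
    (hcomp : ∀ t, Gen l t → ∀ a b, Cons l t a b → vert a = vert b ∨ sd (vert a) ≠ sd (vert b))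
    (hcov : ∀ x y, sd x = true → sd y = false → ∃ t, Gen l t ∧ ∃ a b, Cons l t a b ∧
      ((vert a = x ∧ vert b = y) ∨ (vert a = y ∧ vert b = x))) :
    (univ.filter (fun x => sd x = true)).card * (univ.filter (fun y => sd y = false)).card ≤
      4 * (univ.filter (fun b : β => sd (vert b) = false)).card := by
  rcases isEmpty_or_nonempty β with hβ | hβ
  · have h0 : (univ.filter (fun x => sd x = true)).card *
        (univ.filter (fun y => sd y = false)).card = 0 := by
      by_contra hcon
      have h4 : 0 < (univ.filter (fun x => sd x = true)).card :=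
        Nat.pos_of_ne_zero (fun h => hcon (by rw [h, zero_mul]))
      have h5 : 0 < (univ.filter (fun y => sd y = false)).card :=
        Nat.pos_of_ne_zero (fun h => hcon (by rw [h, mul_zero]))
      obtain ⟨x, hx⟩ := Finset.card_pos.1 h4
      obtain ⟨y, hy⟩ := Finset.card_pos.1 h5
      obtain ⟨t, -, a, -⟩ := hcov x y (Finset.mem_filter.1 hx).2 (Finset.mem_filter.1 hy).2
      exact hβ.elim a
    rw [h0]
    exact Nat.zero_le _
  obtain ⟨c, P, h1, h2, h3⟩ := sweep_main vert sd l
  obtain ⟨θ, hθ⟩ := exists_theta l
  have hcons : ∀ t, Gen l t → ∀ a b, Cons l t a b → 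
      ((Sum.inl a : β ⊕ Bool), (Sum.inl b : β ⊕ Bool)) ∈ ap (ex (col l t).sort) := by
    intro t _ a b hab
    exact ap_ex (ap_sort hab.1 hab.2.1 hab.2.2.1 hab.2.2.2)
  set LX : Finset (β ⊕ Bool) :=
    (univ.filter (fun a : β => sd (vert a) = true)).image (fun a => c (Sum.inl a)) with hLX
  set LY : Finset (β ⊕ Bool) :=
    (univ.filter (fun a : β => sd (vert a) = false)).image (fun a => c (Sum.inl a)) with hLY
  have hcard : (univ.image c).card ≤ LX.card + LY.card + 2 := by
    have hsub : univ.image c ⊆ (LX ∪ LY) ∪ {c (Sum.inr true), c (Sum.inr false)} := by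
      intro z hz
      rw [Finset.mem_image] at hz
      obtain ⟨a, -, rfl⟩ := hz
      rcases a with a | b
      · rw [Finset.mem_union, Finset.mem_union]
        left
        cases hs : sd (vert a)
        · right
          exact Finset.mem_image.2 ⟨a, by simp [hs], rfl⟩
        · left
          exact Finset.mem_image.2 ⟨a, by simp [hs], rfl⟩
      · rw [Finset.mem_union]
        right
        cases b <;> simp
    have h4 := Finset.card_le_card hsub
    have h5 := Finset.card_union_le (LX ∪ LY) {c (Sum.inr true), c (Sum.inr false)}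
    have h6 := Finset.card_union_le LX LY
    have h7 := Finset.card_le_two (a := c (Sum.inr true)) (b := c (Sum.inr false))
    omega
  have hLYc : LY.card ≤ (univ.filter (fun b : β => sd (vert b) = false)).card :=
    Finset.card_image_le
  have hlab : ∀ a a' : β, c (Sum.inl a) = c (Sum.inl a') → vert a = vert a' := by
    intro a a' h
    have h4 := h1 (Sum.inl a)
    have h5 := h1 (Sum.inl a')
    rw [h] at h4
    have h6 := h4.symm.trans h5
    simpa [vert'] using h6
  -- the top
  have claimT : LX.card ≤ (LX.filter (fun u => (u, c (Sum.inr true)) ∈ P)).card +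
      (univ.filter (fun b : β => sd (vert b) = false)).card := by
    have key : ∀ u ∈ LX.filter (fun u => (u, c (Sum.inr true)) ∉ P), ∃ b a : β,
        sd (vert b) = false ∧ Cons l (ct l θ b) a b ∧ c (Sum.inl a) = u := by
      intro u hu
      rw [Finset.mem_filter, Finset.mem_image] at hu
      obtain ⟨⟨a, ha, rfl⟩, hu2⟩ := hu
      rw [Finset.mem_filter] at ha
      have hne : ((col l (ct l θ a)).filter (fun a' => c (Sum.inl a') = c (Sum.inl a))).Nonempty :=
        ⟨a, Finset.mem_filter.2 ⟨mem_col_ct hθ a, rfl⟩⟩
      set m := ((col l (ct l θ a)).filter (fun a' => c (Sum.inl a') = c (Sum.inl a))).max' hne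
        with hm
      have hmem := Finset.max'_mem _ hne
      rw [← hm, Finset.mem_filter] at hmem
      have hvm : vert m = vert a := hlab _ _ hmem.2
      have hgen := gen_ct hθ a
      have hU : ((col l (ct l θ a)).filter (fun b => m < b)).Nonempty := by
        by_contra hcon
        rw [Finset.not_nonempty_iff_eq_empty] at hcon
        have h4 := ap_ex_top hmem.1 (fun b hb hmb => by
          have : b ∈ (col l (ct l θ a)).filter (fun b => m < b) := Finset.mem_filter.2 ⟨hb, hmb⟩
          rw [hcon] at this
          simp at this)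
        have h5 := (h2 _ hgen _ _ h4).2.1 (by
          change sd (vert m) = true
          rw [hvm]; exact ha.2) rfl
        rw [hmem.2] at h5
        exact hu2 h5
      set b := ((col l (ct l θ a)).filter (fun b => m < b)).min' hU with hb
      have hbmem := Finset.min'_mem _ hU
      rw [← hb, Finset.mem_filter] at hbmem
      have hC : Cons l (ct l θ a) m b := by
        refine ⟨hmem.1, hbmem.1, hbmem.2, ?_⟩
        rintro z hz ⟨h4, h5⟩
        have h6 := Finset.min'_le _ z (Finset.mem_filter.2 ⟨hz, h4⟩)
        rw [← hb] at h6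
        exact absurd h5 (not_lt.2 h6)
      have hvb : vert m ≠ vert b := by
        intro h4
        have h5 := (h2 _ hgen _ _ (hcons _ hgen _ _ hC)).1 (by simp [vert', h4])
        have h6 := Finset.le_max' ((col l (ct l θ a)).filter
          (fun a' => c (Sum.inl a') = c (Sum.inl a))) b
          (Finset.mem_filter.2 ⟨hbmem.1, by rw [← h5, hmem.2]⟩)
        rw [← hm] at h6
        exact absurd hbmem.2 (not_lt.2 h6)
      have hsb : sd (vert b) = false := by
        rcases hcomp _ hgen _ _ hC with h4 | h4
        · exact absurd h4 hvb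
        · rw [hvm, ha.2] at h4
          cases h : sd (vert b)
          · rfl
          · rw [h] at h4; exact absurd rfl h4
      refine ⟨b, m, hsb, ?_, hmem.2⟩
      rw [ct_eq hbmem.1]
      exact hC
    choose! g g' hg using key
    have h4 : (LX.filter (fun u => (u, c (Sum.inr true)) ∉ P)).card ≤
        (univ.filter (fun b : β => sd (vert b) = false)).card := by
      apply Finset.card_le_card_of_injOn g
      · intro u hu
        simp only [Finset.coe_filter, Finset.mem_univ, true_and, Set.mem_setOf_eq]
        exact (hg u hu).1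
      · intro u hu v hv huv
        obtain ⟨-, h5, h6⟩ := hg u hu
        obtain ⟨-, h7, h8⟩ := hg v hv
        rw [← huv] at h7
        have h9 : g' u = g' v := by
          rcases lt_trichotomy (g' u) (g' v) with h | h | h
          · exact absurd ⟨h, h7.2.2.1⟩ (h5.2.2.2 _ h7.1)
          · exact h
          · exact absurd ⟨h, h5.2.2.1⟩ (h7.2.2.2 _ h5.1)
        rw [← h6, ← h8, h9]
    have h5 := Finset.card_filter_add_card_filter_not (s := LX)
      (fun u => (u, c (Sum.inr true)) ∈ P)
    omega
  -- the bottom
  have claimB : LX.card ≤ (LX.filter (fun u => (u, c (Sum.inr false)) ∈ P)).card +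
      (univ.filter (fun b : β => sd (vert b) = false)).card := by
    have key : ∀ u ∈ LX.filter (fun u => (u, c (Sum.inr false)) ∉ P), ∃ b a : β,
        sd (vert b) = false ∧ Cons l (ct l θ b) b a ∧ c (Sum.inl a) = u := by
      intro u hu
      rw [Finset.mem_filter, Finset.mem_image] at hu
      obtain ⟨⟨a, ha, rfl⟩, hu2⟩ := hu
      rw [Finset.mem_filter] at ha
      have hne : ((col l (ct l θ a)).filter (fun a' => c (Sum.inl a') = c (Sum.inl a))).Nonempty :=
        ⟨a, Finset.mem_filter.2 ⟨mem_col_ct hθ a, rfl⟩⟩
      set m := ((col l (ct l θ a)).filter (fun a' => c (Sum.inl a') = c (Sum.inl a))).min' hne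
        with hm
      have hmem := Finset.min'_mem _ hne
      rw [← hm, Finset.mem_filter] at hmem
      have hvm : vert m = vert a := hlab _ _ hmem.2
      have hgen := gen_ct hθ a
      have hU : ((col l (ct l θ a)).filter (fun b => b < m)).Nonempty := by
        by_contra hcon
        rw [Finset.not_nonempty_iff_eq_empty] at hcon
        have h4 := ap_ex_bot hmem.1 (fun b hb hmb => by
          have : b ∈ (col l (ct l θ a)).filter (fun b => b < m) := Finset.mem_filter.2 ⟨hb, hmb⟩
          rw [hcon] at this
          simp at this)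
        have h5 := (h2 _ hgen _ _ h4).2.2 rfl (by
          change sd (vert m) = true
          rw [hvm]; exact ha.2)
        rw [hmem.2] at h5
        exact hu2 h5
      set b := ((col l (ct l θ a)).filter (fun b => b < m)).max' hU with hb
      have hbmem := Finset.max'_mem _ hU
      rw [← hb, Finset.mem_filter] at hbmem
      have hC : Cons l (ct l θ a) b m := by
        refine ⟨hbmem.1, hmem.1, hbmem.2, ?_⟩
        rintro z hz ⟨h4, h5⟩
        have h6 := Finset.le_max' ((col l (ct l θ a)).filter (fun b => b < m)) z
          (Finset.mem_filter.2 ⟨hz, h5⟩)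
        rw [← hb] at h6
        exact absurd h4 (not_lt.2 h6)
      have hvb : vert m ≠ vert b := by
        intro h4
        have h5 := (h2 _ hgen _ _ (hcons _ hgen _ _ hC)).1 (by simp [vert', h4])
        have h6 := Finset.min'_le ((col l (ct l θ a)).filter
          (fun a' => c (Sum.inl a') = c (Sum.inl a))) b
          (Finset.mem_filter.2 ⟨hbmem.1, by rw [h5, hmem.2]⟩)
        rw [← hm] at h6
        exact absurd hbmem.2 (not_lt.2 h6)
      have hsb : sd (vert b) = false := by
        rcases hcomp _ hgen _ _ hC with h4 | h4
        · exact absurd h4.symm hvb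
        · rw [hvm, ha.2] at h4
          cases h : sd (vert b)
          · rfl
          · rw [h] at h4; exact absurd rfl h4
      refine ⟨b, m, hsb, ?_, hmem.2⟩
      rw [ct_eq hbmem.1]
      exact hC
    choose! g g' hg using key
    have h4 : (LX.filter (fun u => (u, c (Sum.inr false)) ∉ P)).card ≤
        (univ.filter (fun b : β => sd (vert b) = false)).card := by
      apply Finset.card_le_card_of_injOn g
      · intro u hu
        simp only [Finset.coe_filter, Finset.mem_univ, true_and, Set.mem_setOf_eq]
        exact (hg u hu).1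
      · intro u hu v hv huv
        obtain ⟨-, h5, h6⟩ := hg u hu
        obtain ⟨-, h7, h8⟩ := hg v hv
        rw [← huv] at h7
        have h9 : g' u = g' v := by
          rcases lt_trichotomy (g' u) (g' v) with h | h | h
          · exact absurd ⟨h5.2.2.1, h⟩ (h7.2.2.2 _ h5.2.1)
          · exact h
          · exact absurd ⟨h7.2.2.1, h⟩ (h5.2.2.2 _ h7.2.1)
        rw [← h6, ← h8, h9]
    have h5 := Finset.card_filter_add_card_filter_not (s := LX)
      (fun u => (u, c (Sum.inr false)) ∈ P)
    omega
  -- the pairs
  have claimP : (univ.filter (fun x => sd x = true)).card *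
      (univ.filter (fun y => sd y = false)).card +
      (LX.filter (fun u => (u, c (Sum.inr true)) ∈ P)).card +
      (LX.filter (fun u => (u, c (Sum.inr false)) ∈ P)).card ≤ P.card := by
    let P0 := P.filter (fun e => ∃ y : V, vert' vert e.2 = Sum.inl y)
    let P1 := P.filter (fun e => vert' vert e.2 = Sum.inr true)
    let P2 := P.filter (fun e => vert' vert e.2 = Sum.inr false)
    have hd01 : Disjoint P0 P1 := by
      rw [Finset.disjoint_left]
      intro e he he'
      obtain ⟨y, hy⟩ := (Finset.mem_filter.1 he).2
      have := (Finset.mem_filter.1 he').2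
      rw [hy] at this
      exact absurd this (by simp)
    have hd02 : Disjoint (P0 ∪ P1) P2 := by
      rw [Finset.disjoint_left]
      intro e he he'
      have h7 := (Finset.mem_filter.1 he').2
      rw [Finset.mem_union] at he
      rcases he with he | he
      · obtain ⟨y, hy⟩ := (Finset.mem_filter.1 he).2
        rw [hy] at h7
        exact absurd h7 (by simp)
      · have h8 := (Finset.mem_filter.1 he).2
        rw [h8] at h7
        exact absurd h7 (by simp)
    have hsub : (P0 ∪ P1) ∪ P2 ⊆ P := by
      intro e he
      rw [Finset.mem_union, Finset.mem_union] at he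
      rcases he with (he | he) | he
      · exact (Finset.mem_filter.1 he).1
      · exact (Finset.mem_filter.1 he).1
      · exact (Finset.mem_filter.1 he).1
    have hle := Finset.card_le_card hsub
    rw [Finset.card_union_of_disjoint hd02, Finset.card_union_of_disjoint hd01] at hle
    have hP1 : (LX.filter (fun u => (u, c (Sum.inr true)) ∈ P)).card ≤ P1.card := by
      apply Finset.card_le_card_of_injOn (fun u => (u, c (Sum.inr true)))
      · intro u hu
        have hu' := (Finset.mem_filter.1 hu).2
        refine Finset.mem_filter.2 ⟨hu', ?_⟩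
        change vert' vert (c (Sum.inr true)) = Sum.inr true
        rw [h1]; rfl
      · intro u _ v _ huv
        exact (Prod.mk.inj huv).1
    have hP2 : (LX.filter (fun u => (u, c (Sum.inr false)) ∈ P)).card ≤ P2.card := by
      apply Finset.card_le_card_of_injOn (fun u => (u, c (Sum.inr false)))
      · intro u hu
        have hu' := (Finset.mem_filter.1 hu).2
        refine Finset.mem_filter.2 ⟨hu', ?_⟩
        change vert' vert (c (Sum.inr false)) = Sum.inr false
        rw [h1]; rfl
      · intro u _ v _ huv
        exact (Prod.mk.inj huv).1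
    have hP0 : (univ.filter (fun x => sd x = true)).card *
        (univ.filter (fun y => sd y = false)).card ≤ P0.card := by
      rw [← Finset.card_product]
      have key : ∀ z ∈ (univ.filter (fun x => sd x = true)) ×ˢ
          (univ.filter (fun y => sd y = false)), ∃ e ∈ P0,
          vert' vert e.1 = Sum.inl z.1 ∧ vert' vert e.2 = Sum.inl z.2 := by
        intro z hz
        rw [Finset.mem_product, Finset.mem_filter, Finset.mem_filter] at hz
        obtain ⟨⟨-, hx⟩, ⟨-, hy⟩⟩ := hz
        obtain ⟨t, ht, a, b, hab, hv⟩ := hcov z.1 z.2 hx hy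
        have h7 := h2 t ht _ _ (hcons t ht a b hab)
        rcases hv with ⟨hv1, hv2⟩ | ⟨hv1, hv2⟩
        · have h8 := h7.2.1 (by change sd (vert a) = true; rw [hv1]; exact hx)
            (by change sd (vert b) = false; rw [hv2]; exact hy)
          refine ⟨_, Finset.mem_filter.2 ⟨h8, vert b, ?_⟩, ?_, ?_⟩
          · dsimp only; rw [h1]; rfl
          · dsimp only; rw [h1, ← hv1]; rfl
          · dsimp only; rw [h1, ← hv2]; rfl
        · have h8 := h7.2.2 (by change sd (vert a) = false; rw [hv1]; exact hy)
            (by change sd (vert b) = true; rw [hv2]; exact hx)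
          refine ⟨_, Finset.mem_filter.2 ⟨h8, vert a, ?_⟩, ?_, ?_⟩
          · dsimp only; rw [h1]; rfl
          · dsimp only; rw [h1, ← hv2]; rfl
          · dsimp only; rw [h1, ← hv1]; rfl
      choose! f hf using key
      apply Finset.card_le_card_of_injOn f
      · intro z hz
        exact (hf z hz).1
      · intro z hz z' hz' hzz
        obtain ⟨-, h7, h8⟩ := hf z hz
        obtain ⟨-, h9, h10⟩ := hf z' hz'
        rw [hzz] at h7 h8
        exact Prod.ext (Sum.inl.inj (h7.symm.trans h9)) (Sum.inl.inj (h8.symm.trans h10))
    omega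
  omega

end count

end Pool.Agent.R88.UB
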