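import Pool.Agent.R88.UB.Main

/-!
# Unit bar visibility representations: definitions and the lower bound for `K_{m,n}`
-/

set_option autoImplicit false

namespace Pool.Agent.R88.UB

open Finset
open scoped Classical

/-- The unit bar with left endpoint `p`. -/
def Seg (p : ℝ × ℝ) : Set (ℝ × ℝ) := {z | p.1 ≤ z.1 ∧ z.1 ≤ p.1 + 1 ∧ z.2 = p.2}

/-- The closed vertical channel over `[α, β]` between the heights of `p` and `q`. -/
def Chan (α β : ℝ) (p q : ℝ × ℝ) : Set (ℝ × ℝ) :=
  {z | α ≤ z.1 ∧ z.1 ≤ β ∧ min p.2 q.2 ≤ z.2 ∧ z.2 ≤ max p.2 q.2}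

/-- The unit bars with left endpoints `p` and `q` are joined by a vertical channel of positive
width which meets no other bar; `D` is the set of the left endpoints of all bars. -/
def Joined (D : Set (ℝ × ℝ)) (p q : ℝ × ℝ) : Prop :=
  ∃ α β : ℝ, α < β ∧ p.1 ≤ α ∧ β ≤ p.1 + 1 ∧ q.1 ≤ α ∧ β ≤ q.1 + 1 ∧
    ∀ r ∈ D, r ≠ p → r ≠ q → Disjoint (Seg r) (Chan α β p q)

/-- `R` is a `t`-unit-bar visibility representation of `G`: it assigns to every vertex a set of at
most `t` unit bars (given by their left endpoints), all bars are pairwise disjoint, and distinct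
vertices are adjacent if and only if some bar of the first and some bar of the second are joined by
a channel. -/
def IsRep {V : Type} (G : SimpleGraph V) (t : ℕ) (R : V → Finset (ℝ × ℝ)) : Prop :=
  (∀ v, (R v).card ≤ t) ∧
  (∀ v w, ∀ p ∈ R v, ∀ q ∈ R w, (v, p) ≠ (w, q) → Disjoint (Seg p) (Seg q)) ∧
  (∀ v w, v ≠ w → (G.Adj v w ↔ ∃ p ∈ R v, ∃ q ∈ R w, Joined {r | ∃ u, r ∈ R u} p q))

/-- The unit bar visibility number: the least positive integer `t` for which `G` has a
`t`-unit-bar visibility representation. -/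
noncomputable def ub {V : Type} (G : SimpleGraph V) : ℕ :=
  sInf {t : ℕ | 0 < t ∧ ∃ R : V → Finset (ℝ × ℝ), IsRep G t R}

theorem seg_disj {p q : ℝ × ℝ} (h : Disjoint (Seg p) (Seg q)) (hh : p.2 = q.2) :
    1 < |p.1 - q.1| := by
  by_contra hcon
  push Not at hcon
  rw [abs_le] at hcon
  rw [Set.disjoint_left] at h
  rcases le_total p.1 q.1 with h1 | h1
  · exact h (a := (q.1, q.2)) ⟨h1, by dsimp only; linarith, hh.symm⟩
      ⟨le_rfl, by dsimp only; linarith, rfl⟩
  · exact h (a := (p.1, p.2)) ⟨le_rfl, by dsimp only; linarith, rfl⟩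
      ⟨h1, by dsimp only; linarith, hh⟩

theorem seg_self (p : ℝ × ℝ) : p ∈ Seg p := ⟨le_rfl, by linarith, rfl⟩

section lower

variable {m n t : ℕ} {R : Fin m ⊕ Fin n → Finset (ℝ × ℝ)}

/-- the type of all bars -/
structure Bar (R : Fin m ⊕ Fin n → Finset (ℝ × ℝ)) where
  /-- vertex -/
  v : Fin m ⊕ Fin n
  /-- left endpoint -/
  p : ℝ × ℝ
  hp : p ∈ R v

noncomputable instance (R : Fin m ⊕ Fin n → Finset (ℝ × ℝ)) : Fintype (Bar R) :=
  Fintype.ofEquiv (Σ v, {p // p ∈ R v})
    ⟨fun z => ⟨z.1, z.2.1, z.2.2⟩, fun b => ⟨b.v, b.p, b.hp⟩, fun _ => rfl, fun _ => rfl⟩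

theorem key_inj (h : IsRep (completeBipartiteGraph (Fin m) (Fin n)) t R) :
    Function.Injective (fun z : Bar R => toLex (z.p.2, z.p.1)) := by
  rintro ⟨v, p, hp⟩ ⟨w, q, hq⟩ hz
  have h1 := toLex.injective hz
  simp only [Prod.mk.injEq] at h1
  have hpq : p = q := Prod.ext h1.2 h1.1
  subst hpq
  by_cases hvw : v = w
  · subst hvw; rfl
  · have h2 := h.2.1 v w p hp p hq (by simp [hvw])
    exact absurd (seg_self p) (Set.disjoint_left.1 h2 (seg_self p))

theorem le_of_isRep (h : IsRep (completeBipartiteGraph (Fin m) (Fin n)) t R) (hn : 1 ≤ n) :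
    m ≤ 4 * t := by
  letI : LinearOrder (Bar R) := LinearOrder.lift' _ (key_inj h)
  have hle : ∀ a b : Bar R, a < b ↔ toLex (a.p.2, a.p.1) < toLex (b.p.2, b.p.1) :=
    fun a b => Iff.rfl
  have hht : ∀ a b : Bar R, a.p.2 < b.p.2 → a < b := by
    intro a b hab
    rw [hle, Prod.Lex.toLex_lt_toLex]
    exact Or.inl hab
  have hht' : ∀ a b : Bar R, a < b → a.p.2 ≤ b.p.2 := by
    intro a b hab
    rw [hle, Prod.Lex.toLex_lt_toLex] at hab
    rcases hab with hab | hab
    · exact hab.le
    · exact hab.1.le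
  have hdis : ∀ a b : Bar R, a ≠ b → a.p.2 = b.p.2 → 1 < |a.p.1 - b.p.1| := by
    intro a b hab hh
    apply seg_disj _ hh
    apply h.2.1 a.v b.v _ a.hp _ b.hp
    intro h1
    apply hab
    obtain ⟨v, p, hp⟩ := a
    obtain ⟨w, q, hq⟩ := b
    simp only [Prod.mk.injEq] at h1
    obtain ⟨rfl, rfl⟩ := h1
    rfl
  have hcount := count (β := Bar R) (V := Fin m ⊕ Fin n) (fun z => z.v) (fun v => v.isLeft)
    (l := fun z => z.p.1) ?_ ?_
  · have h1 : (univ.filter (fun x : Fin m ⊕ Fin n => x.isLeft = true)).card = m := by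
      have : (univ.filter (fun x : Fin m ⊕ Fin n => x.isLeft = true)) =
          univ.map Function.Embedding.inl := by
        ext x
        rcases x with x | x <;> simp
      rw [this, Finset.card_map, Finset.card_univ, Fintype.card_fin]
    have h2 : (univ.filter (fun x : Fin m ⊕ Fin n => x.isLeft = false)).card = n := by
      have : (univ.filter (fun x : Fin m ⊕ Fin n => x.isLeft = false)) =
          univ.map Function.Embedding.inr := by
        ext x
        rcases x with x | x <;> simp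
      rw [this, Finset.card_map, Finset.card_univ, Fintype.card_fin]
    have h3 : (univ.filter (fun b : Bar R => b.v.isLeft = false)).card ≤ n * t := by
      have h4 : (univ.filter (fun b : Bar R => b.v.isLeft = false)) =
          (univ : Finset (Fin n)).biUnion (fun y => (univ : Finset {p // p ∈ R (Sum.inr y)}).image
            (fun p => (⟨Sum.inr y, p.1, p.2⟩ : Bar R))) := by
        ext b
        simp only [Finset.mem_filter, Finset.mem_univ, true_and, Finset.mem_biUnion,
          Finset.mem_image]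
        constructor
        · intro hb
          obtain ⟨v, p, hp⟩ := b
          rcases v with v | v
          · simp at hb
          · exact ⟨v, ⟨p, hp⟩, rfl⟩
        · rintro ⟨y, p, rfl⟩
          rfl
      rw [h4]
      refine Finset.card_biUnion_le.trans ?_
      calc ∑ y : Fin n, ((univ : Finset {p // p ∈ R (Sum.inr y)}).image
            (fun p => (⟨Sum.inr y, p.1, p.2⟩ : Bar R))).card ≤ ∑ _y : Fin n, t := by
            apply Finset.sum_le_sum
            intro y _
            refine Finset.card_image_le.trans ?_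
            rw [Finset.card_univ, Fintype.card_coe]
            exact h.1 _
        _ = n * t := by simp
    rw [h1, h2] at hcount
    have h5 : n * m ≤ n * (4 * t) := by
      calc n * m = m * n := Nat.mul_comm _ _
        _ ≤ _ := hcount
        _ ≤ 4 * (n * t) := Nat.mul_le_mul_left _ h3
        _ = n * (4 * t) := by ring
    exact Nat.le_of_mul_le_mul_left h5 hn
  · -- compatibility
    intro s hs a b hab
    obtain ⟨ha, hb, hlt, hno⟩ := hab
    simp only [col, Finset.mem_filter, Finset.mem_univ, true_and] at ha hb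
    have hne : a.p.2 ≠ b.p.2 := by
      intro hh
      have := hdis a b hlt.ne hh
      rw [lt_abs] at this
      rcases this with h1 | h1 <;> linarith [ha.1, ha.2, hb.1, hb.2]
    have hlt' : a.p.2 < b.p.2 := lt_of_le_of_ne (hht' a b hlt) hne
    by_cases hv : a.v = b.v
    · exact Or.inl hv
    right
    -- a channel around `s`
    have hch : ∀ r : Bar R, r ≠ a → r ≠ b → a.p.2 ≤ r.p.2 → r.p.2 ≤ b.p.2 →
        s < r.p.1 ∨ r.p.1 + 1 < s := by
      intro r hra hrb h1 h2
      by_contra hcon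
      push Not at hcon
      obtain ⟨h3, h4⟩ := hcon
      have hg := hs r
      have h5 : r.p.1 < s := lt_of_le_of_ne h3 hg.1.symm
      have h6 : s < r.p.1 + 1 := lt_of_le_of_ne h4 hg.2
      have hrcol : r ∈ col (fun z : Bar R => z.p.1) s := by
        simp only [col, Finset.mem_filter, Finset.mem_univ, true_and]
        exact ⟨h5, h6⟩
      rcases h1.eq_or_lt with h7 | h7
      · have := hdis r a hra h7.symm
        rw [lt_abs] at this
        rcases this with h8 | h8 <;> linarith [ha.1, ha.2]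
      rcases h2.eq_or_lt with h8 | h8
      · have := hdis r b hrb h8
        rw [lt_abs] at this
        rcases this with h9 | h9 <;> linarith [hb.1, hb.2]
      exact hno r hrcol ⟨hht _ _ h7, hht _ _ h8⟩
    obtain ⟨ε, hε, hε1, hε2, hε3, hε4, hεr⟩ : ∃ ε : ℝ, 0 < ε ∧ a.p.1 ≤ s - ε ∧
        s + ε ≤ a.p.1 + 1 ∧ b.p.1 ≤ s - ε ∧ s + ε ≤ b.p.1 + 1 ∧
        ∀ r : Bar R, r ≠ a → r ≠ b → a.p.2 ≤ r.p.2 → r.p.2 ≤ b.p.2 →
          s + ε < r.p.1 ∨ r.p.1 + 1 < s - ε := by
      have hev : ∀ᶠ ε : ℝ in nhdsWithin 0 (Set.Ioi 0), 0 < ε ∧ a.p.1 ≤ s - ε ∧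
        s + ε ≤ a.p.1 + 1 ∧ b.p.1 ≤ s - ε ∧ s + ε ≤ b.p.1 + 1 ∧
        ∀ r : Bar R, r ≠ a → r ≠ b → a.p.2 ≤ r.p.2 → r.p.2 ≤ b.p.2 →
          s + ε < r.p.1 ∨ r.p.1 + 1 < s - ε := by
        have gen : ∀ δ : ℝ, 0 < δ → ∀ᶠ ε : ℝ in nhdsWithin 0 (Set.Ioi 0), ε < δ :=
          fun δ hδ => (eventually_nhdsWithin_of_eventually_nhds (eventually_lt_nhds hδ))
        have hr : ∀ r : Bar R, ∀ᶠ ε : ℝ in nhdsWithin 0 (Set.Ioi 0),
            r ≠ a → r ≠ b → a.p.2 ≤ r.p.2 → r.p.2 ≤ b.p.2 →
            s + ε < r.p.1 ∨ r.p.1 + 1 < s - ε := by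
          intro r
          by_cases hc : r ≠ a ∧ r ≠ b ∧ a.p.2 ≤ r.p.2 ∧ r.p.2 ≤ b.p.2
          · obtain ⟨h1, h2, h3, h4⟩ := hc
            rcases hch r h1 h2 h3 h4 with h5 | h5
            · filter_upwards [gen (r.p.1 - s) (by linarith)] with ε hε _ _ _ _
              left; linarith
            · filter_upwards [gen (s - (r.p.1 + 1)) (by linarith)] with ε hε _ _ _ _
              right; linarith
          · apply Filter.Eventually.of_forall
            intro ε h1 h2 h3 h4
            exact absurd ⟨h1, h2, h3, h4⟩ hc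
        filter_upwards [self_mem_nhdsWithin, gen (s - a.p.1) (by linarith [ha.1]),
          gen (a.p.1 + 1 - s) (by linarith [ha.2]), gen (s - b.p.1) (by linarith [hb.1]),
          gen (b.p.1 + 1 - s) (by linarith [hb.2]), Filter.eventually_all.2 hr] with ε h0 h1 h2
          h3 h4 h5
        exact ⟨h0, by linarith, by linarith, by linarith, by linarith, h5⟩
      exact hev.exists
    have hJ : Joined {r | ∃ u, r ∈ R u} a.p b.p := by
      refine ⟨s - ε, s + ε, by linarith, hε1, hε2, hε3, hε4, ?_⟩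
      rintro r ⟨u, hu⟩ hra hrb
      rw [Set.disjoint_left]
      rintro z ⟨hz1, hz2, hz3⟩ ⟨hz4, hz5, hz6, hz7⟩
      rw [min_eq_left hlt'.le, hz3] at hz6
      rw [max_eq_right hlt'.le, hz3] at hz7
      have hra' : (⟨u, r, hu⟩ : Bar R) ≠ a := by
        rintro rfl
        exact hra rfl
      have hrb' : (⟨u, r, hu⟩ : Bar R) ≠ b := by
        rintro rfl
        exact hrb rfl
      rcases hεr ⟨u, r, hu⟩ hra' hrb' hz6 hz7 with h1 | h1
      · dsimp only at h1; linarith
      · dsimp only at h1; linarith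
    have hAdj := (h.2.2 a.v b.v hv).2 ⟨a.p, a.hp, b.p, b.hp, hJ⟩
    rcases ha1 : a.v with x | x <;> rcases hb1 : b.v with y | y <;> rw [ha1, hb1] at hAdj
    · simp at hAdj
    · simp
    · simp
    · simp at hAdj
  · -- coverage
    intro x y hx hy
    rcases x with x | x
    swap
    · simp at hx
    rcases y with y | y
    · simp at hy
    obtain ⟨p, hp, q, hq, α, β, hαβ, h1, h2, h3, h4, h5⟩ :=
      (h.2.2 (Sum.inl x) (Sum.inr y) (by simp)).1 (by simp)
    obtain ⟨s, hs1, hs2⟩ := (Set.Ioo_infinite hαβ).exists_notMem_finset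
      ((univ.image (fun a : Bar R => a.p.1)) ∪ (univ.image (fun a : Bar R => a.p.1 + 1)))
    have hgen : Gen (fun z : Bar R => z.p.1) s := by
      intro a
      constructor
      · intro h6
        apply hs2
        rw [Finset.mem_union]
        left
        exact Finset.mem_image.2 ⟨a, mem_univ _, h6.symm⟩
      · intro h6
        apply hs2
        rw [Finset.mem_union]
        right
        exact Finset.mem_image.2 ⟨a, mem_univ _, h6.symm⟩
    let a : Bar R := ⟨Sum.inl x, p, hp⟩
    let b : Bar R := ⟨Sum.inr y, q, hq⟩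
    have ha : a ∈ col (fun z : Bar R => z.p.1) s := by
      simp only [col, Finset.mem_filter, Finset.mem_univ, true_and, a]
      exact ⟨by linarith [hs1.1], by linarith [hs1.2]⟩
    have hb : b ∈ col (fun z : Bar R => z.p.1) s := by
      simp only [col, Finset.mem_filter, Finset.mem_univ, true_and, b]
      exact ⟨by linarith [hs1.1], by linarith [hs1.2]⟩
    have hno : ∀ c ∈ col (fun z : Bar R => z.p.1) s, c ≠ a → c ≠ b →
        ¬ (min p.2 q.2 ≤ c.p.2 ∧ c.p.2 ≤ max p.2 q.2) := by
      intro c hc hca hcb h6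
      simp only [col, Finset.mem_filter, Finset.mem_univ, true_and] at hc
      have hcp : c.p ≠ p := by
        intro h7
        by_cases hv : c.v = Sum.inl x
        · apply hca
          obtain ⟨v, p', hp'⟩ := c
          simp only at hv h7
          subst hv; subst h7
          rfl
        · have h8 := h.2.1 c.v (Sum.inl x) _ c.hp p hp (by simp [hv])
          rw [h7] at h8
          exact absurd (seg_self p) (Set.disjoint_left.1 h8 (seg_self p))
      have hcq : c.p ≠ q := by
        intro h7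
        by_cases hv : c.v = Sum.inr y
        · apply hcb
          obtain ⟨v, p', hp'⟩ := c
          simp only at hv h7
          subst hv; subst h7
          rfl
        · have h8 := h.2.1 c.v (Sum.inr y) _ c.hp q hq (by simp [hv])
          rw [h7] at h8
          exact absurd (seg_self q) (Set.disjoint_left.1 h8 (seg_self q))
      have h7 := h5 c.p ⟨c.v, c.hp⟩ hcp hcq
      rw [Set.disjoint_left] at h7
      exact h7 (a := (s, c.p.2)) ⟨hc.1.le, hc.2.le, rfl⟩ ⟨hs1.1.le, hs1.2.le, h6.1, h6.2⟩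
    have hab : a ≠ b := by
      intro h6
      have := congrArg Bar.v h6
      simp [a, b] at this
    refine ⟨s, hgen, ?_⟩
    rcases lt_or_gt_of_ne hab with hlt | hlt
    · refine ⟨a, b, ⟨ha, hb, hlt, ?_⟩, Or.inl ⟨rfl, rfl⟩⟩
      rintro c hc ⟨h6, h7⟩
      refine hno c hc h6.ne' h7.ne ⟨?_, ?_⟩
      · exact (min_le_left _ _).trans (hht' a c h6)
      · exact (hht' c b h7).trans (le_max_right _ _)
    · refine ⟨b, a, ⟨hb, ha, hlt, ?_⟩, Or.inr ⟨rfl, rfl⟩⟩
      rintro c hc ⟨h6, h7⟩
      refine hno c hc h7.ne h6.ne' ⟨?_, ?_⟩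
      · exact (min_le_right _ _).trans (hht' b c h6)
      · exact (hht' c a h7).trans (le_max_left _ _)

end lower

end Pool.Agent.R88.UB
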