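import Mathlib

/-!
# A sweep argument for words of two coloured letters

Letters have a vertex (`vert`) and a vertex has a side (`sd`).  We follow a sequence of words, in
which single fresh letters are inserted and single letters are deleted, and bound the number of
pairs of classes of letters which become adjacent.
-/

set_option autoImplicit false

namespace Pool.Agent.R88.UB

open Finset

section sweep

variable {B V : Type} [DecidableEq B] [DecidableEq V] (vert : B → V) (sd : V → Bool)

/-- weight of an adjacency -/
def bw (a b : B) : ℕ := if vert a = vert b then 0 else if sd (vert a) = sd (vert b) then 2 else 1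

/-- adjacent pairs of a word -/
def ap : List B → List (B × B)
  | [] => []
  | [_] => []
  | a :: b :: l => (a, b) :: ap (b :: l)

/-- total weight of a word -/
def bs (l : List B) : ℕ := ((ap l).map (fun e => bw vert sd e.1 e.2)).sum

theorem ap_append (L1 : List B) (p : B) (L2 : List B) :
    ap (L1 ++ p :: L2) = ap (L1 ++ [p]) ++ ap (p :: L2) := by
  induction L1 with
  | nil => simp [ap]
  | cons a L1 ih =>
    cases L1 with
    | nil => simp [ap]
    | cons b L1 =>
      simp only [List.cons_append, ap] at ih ⊢
      rw [ih]

theorem bs_two (L1 : List B) (p q : B) (L2 : List B) :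
    bs vert sd (L1 ++ p :: q :: L2) =
      bs vert sd (L1 ++ [p]) + bw vert sd p q + bs vert sd (q :: L2) := by
  unfold bs
  rw [ap_append]
  simp only [ap, List.map_append, List.map_cons, List.sum_append, List.sum_cons]
  ring

theorem bs_three (L1 : List B) (p w q : B) (L2 : List B) :
    bs vert sd (L1 ++ p :: w :: q :: L2) =
      bs vert sd (L1 ++ [p]) + bw vert sd p w + bw vert sd w q + bs vert sd (q :: L2) := by
  unfold bs
  rw [ap_append]
  simp only [ap, List.map_append, List.map_cons, List.sum_append, List.sum_cons]
  ring

/-- the invariant of the sweep: `S` are the letters seen so far, `H` the adjacencies seen so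
far -/
def Inv (S : Finset B) (H : Set (B × B)) (l : List B) : Prop :=
  ∃ (c : B → B) (P : Finset (B × B)), (∀ a, vert (c a) = vert a) ∧ (∀ a ∈ S, c a ∈ S) ∧
    (∀ a b, (a, b) ∈ H → vert a = vert b → c a = c b) ∧
    (∀ a b, (a, b) ∈ H → sd (vert a) = true → sd (vert b) = false → (c a, c b) ∈ P) ∧
    (∀ a b, (a, b) ∈ H → sd (vert a) = false → sd (vert b) = true → (c b, c a) ∈ P) ∧
    2 * P.card + bs vert sd l + 6 ≤ 4 * (S.image c).card

theorem inv_insert {S : Finset B} {H : Set (B × B)} {L1 L2 : List B} {p q w : B}
    (hH : ∀ a b, (a, b) ∈ H → a ∈ S ∧ b ∈ S) (hpq : (p, q) ∈ H) (hw : w ∉ S)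
    (h : Inv vert sd S H (L1 ++ p :: q :: L2)) :
    Inv vert sd (insert w S) (H ∪ {(p, w), (w, q)}) (L1 ++ p :: w :: q :: L2) := by
  obtain ⟨c, P, h1, h2, h3, h4, h5, h6⟩ := h
  obtain ⟨hp, hq⟩ := hH p q hpq
  have hpw : p ≠ w := fun h => hw (h ▸ hp)
  have hqw : q ≠ w := fun h => hw (h ▸ hq)
  rw [bs_two] at h6
  unfold Inv
  rw [bs_three]
  -- updates of `c` at `w` do not change the values on `S`
  have hne : ∀ a ∈ S, a ≠ w := fun a ha h => hw (h ▸ ha)
  have himg : ∀ v, (insert w S).image (Function.update c w v) = insert v (S.image c) := by
    intro v
    rw [Finset.image_insert, Function.update_self]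
    congr 1
    apply Finset.image_congr
    intro a ha
    exact Function.update_of_ne (hne a ha) _ _
  by_cases hwp : vert w = vert p
  · refine ⟨Function.update c w (c p), P, ?_, ?_, ?_, ?_, ?_, ?_⟩
    · intro a
      by_cases ha : a = w
      · rw [ha, Function.update_self, h1, hwp]
      · rw [Function.update_of_ne ha, h1]
    · intro a ha
      rw [Finset.mem_insert] at ha
      rcases ha with rfl | ha
      · rw [Function.update_self]
        exact Finset.mem_insert_of_mem (h2 p hp)
      · rw [Function.update_of_ne (hne a ha)]
        exact Finset.mem_insert_of_mem (h2 a ha)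
    · intro a b hab hv
      rcases hab with hab | hab | hab
      · obtain ⟨ha, hb⟩ := hH a b hab
        rw [Function.update_of_ne (hne a ha), Function.update_of_ne (hne b hb)]
        exact h3 a b hab hv
      · rw [Prod.mk.injEq] at hab
        obtain ⟨rfl, rfl⟩ := hab
        rw [Function.update_self, Function.update_of_ne hpw]
      · have hab : (a, b) = (w, q) := hab
        rw [Prod.mk.injEq] at hab
        obtain ⟨rfl, rfl⟩ := hab
        rw [Function.update_self, Function.update_of_ne hqw]
        exact h3 p b hpq (hwp ▸ hv)
    · intro a b hab hv hv'
      rcases hab with hab | hab | hab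
      · obtain ⟨ha, hb⟩ := hH a b hab
        rw [Function.update_of_ne (hne a ha), Function.update_of_ne (hne b hb)]
        exact h4 a b hab hv hv'
      · rw [Prod.mk.injEq] at hab
        obtain ⟨rfl, rfl⟩ := hab
        rw [hwp, hv] at hv'
        exact absurd hv' (by simp)
      · have hab : (a, b) = (w, q) := hab
        rw [Prod.mk.injEq] at hab
        obtain ⟨rfl, rfl⟩ := hab
        rw [Function.update_self, Function.update_of_ne hqw]
        exact h4 p b hpq (hwp ▸ hv) hv'
    · intro a b hab hv hv'
      rcases hab with hab | hab | hab
      · obtain ⟨ha, hb⟩ := hH a b hab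
        rw [Function.update_of_ne (hne a ha), Function.update_of_ne (hne b hb)]
        exact h5 a b hab hv hv'
      · rw [Prod.mk.injEq] at hab
        obtain ⟨rfl, rfl⟩ := hab
        rw [hwp, hv] at hv'
        exact absurd hv' (by simp)
      · have hab : (a, b) = (w, q) := hab
        rw [Prod.mk.injEq] at hab
        obtain ⟨rfl, rfl⟩ := hab
        rw [Function.update_self, Function.update_of_ne hqw]
        exact h5 p b hpq (hwp ▸ hv) hv'
    · rw [himg, Finset.insert_eq_of_mem (Finset.mem_image_of_mem c hp)]
      have e1 : bw vert sd p w = 0 := by unfold bw; rw [if_pos hwp.symm]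
      have e2 : bw vert sd w q = bw vert sd p q := by unfold bw; rw [hwp]
      rw [e1, e2]
      omega
  by_cases hwq : vert w = vert q
  · refine ⟨Function.update c w (c q), P, ?_, ?_, ?_, ?_, ?_, ?_⟩
    · intro a
      by_cases ha : a = w
      · rw [ha, Function.update_self, h1, hwq]
      · rw [Function.update_of_ne ha, h1]
    · intro a ha
      rw [Finset.mem_insert] at ha
      rcases ha with rfl | ha
      · rw [Function.update_self]
        exact Finset.mem_insert_of_mem (h2 q hq)
      · rw [Function.update_of_ne (hne a ha)]
        exact Finset.mem_insert_of_mem (h2 a ha)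
    · intro a b hab hv
      rcases hab with hab | hab | hab
      · obtain ⟨ha, hb⟩ := hH a b hab
        rw [Function.update_of_ne (hne a ha), Function.update_of_ne (hne b hb)]
        exact h3 a b hab hv
      · rw [Prod.mk.injEq] at hab
        obtain ⟨rfl, rfl⟩ := hab
        exact absurd hv.symm hwp
      · have hab : (a, b) = (w, q) := hab
        rw [Prod.mk.injEq] at hab
        obtain ⟨rfl, rfl⟩ := hab
        rw [Function.update_self, Function.update_of_ne hqw]
    · intro a b hab hv hv'
      rcases hab with hab | hab | hab
      · obtain ⟨ha, hb⟩ := hH a b hab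
        rw [Function.update_of_ne (hne a ha), Function.update_of_ne (hne b hb)]
        exact h4 a b hab hv hv'
      · rw [Prod.mk.injEq] at hab
        obtain ⟨rfl, rfl⟩ := hab
        rw [Function.update_self, Function.update_of_ne hpw]
        exact h4 a q hpq hv (hwq ▸ hv')
      · have hab : (a, b) = (w, q) := hab
        rw [Prod.mk.injEq] at hab
        obtain ⟨rfl, rfl⟩ := hab
        rw [hwq, hv'] at hv
        exact absurd hv (by simp)
    · intro a b hab hv hv'
      rcases hab with hab | hab | hab
      · obtain ⟨ha, hb⟩ := hH a b hab
        rw [Function.update_of_ne (hne a ha), Function.update_of_ne (hne b hb)]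
        exact h5 a b hab hv hv'
      · rw [Prod.mk.injEq] at hab
        obtain ⟨rfl, rfl⟩ := hab
        rw [Function.update_self, Function.update_of_ne hpw]
        exact h5 a q hpq hv (hwq ▸ hv')
      · have hab : (a, b) = (w, q) := hab
        rw [Prod.mk.injEq] at hab
        obtain ⟨rfl, rfl⟩ := hab
        rw [hwq, hv'] at hv
        exact absurd hv (by simp)
    · rw [himg, Finset.insert_eq_of_mem (Finset.mem_image_of_mem c hq)]
      have e1 : bw vert sd w q = 0 := by unfold bw; rw [if_pos hwq]
      have e2 : bw vert sd p w = bw vert sd p q := by unfold bw; rw [hwq]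
      rw [e1, e2]
      omega
  -- a new class
  have hnew : w ∉ S.image c := by
    intro hcon
    rw [Finset.mem_image] at hcon
    obtain ⟨a, ha, hac⟩ := hcon
    exact hw (hac ▸ h2 a ha)
  have hcard : ((insert w S).image (Function.update c w w)).card = (S.image c).card + 1 := by
    rw [himg, Finset.card_insert_of_notMem hnew]
  -- the new pairs
  let N : Finset (B × B) :=
    (if sd (vert p) = true ∧ sd (vert w) = false then {(c p, w)} else ∅) ∪
    (if sd (vert p) = false ∧ sd (vert w) = true then {(w, c p)} else ∅) ∪
    (if sd (vert w) = true ∧ sd (vert q) = false then {(w, c q)} else ∅) ∪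
    (if sd (vert w) = false ∧ sd (vert q) = true then {(c q, w)} else ∅)
  have hN : 2 * N.card + bw vert sd p w + bw vert sd w q ≤ 4 + bw vert sd p q := by
    have e1 : bw vert sd p w = if sd (vert p) = sd (vert w) then 2 else 1 := by
      unfold bw; rw [if_neg (fun h => hwp h.symm)]
    have e2 : bw vert sd w q = if sd (vert w) = sd (vert q) then 2 else 1 := by
      unfold bw; rw [if_neg hwq]
    rw [e1, e2]
    cases hsp : sd (vert p) <;> cases hsq : sd (vert q) <;> cases hsw : sd (vert w) <;>
      simp only [N, hsp, hsq, hsw] <;> simp
    · by_cases hv : vert p = vert q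
      · have : c p = c q := h3 p q hpq hv
        rw [this]
        simp
        try omega
      · have e3 : bw vert sd p q = 2 := by
          unfold bw; rw [if_neg hv, hsp, hsq, if_pos rfl]
        rw [e3]
        have := Finset.card_le_two (a := (w, c p)) (b := (w, c q))
        have := Finset.card_le_two (a := (w, c q)) (b := (w, c p))
        omega
    · have e3 : bw vert sd p q = 1 := by
        unfold bw
        rw [if_neg (fun h => by rw [h, hsq] at hsp; exact absurd hsp (by simp)), hsp, hsq]
        simp
      omega
    · have e3 : bw vert sd p q = 1 := by
        unfold bw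
        rw [if_neg (fun h => by rw [h, hsq] at hsp; exact absurd hsp (by simp)), hsp, hsq]
        simp
      omega
    · have e3 : bw vert sd p q = 1 := by
        unfold bw
        rw [if_neg (fun h => by rw [h, hsq] at hsp; exact absurd hsp (by simp)), hsp, hsq]
        simp
      omega
    · have e3 : bw vert sd p q = 1 := by
        unfold bw
        rw [if_neg (fun h => by rw [h, hsq] at hsp; exact absurd hsp (by simp)), hsp, hsq]
        simp
      omega
    · by_cases hv : vert p = vert q
      · have : c p = c q := h3 p q hpq hv
        rw [this]
        simp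
        try omega
      · have e3 : bw vert sd p q = 2 := by
          unfold bw; rw [if_neg hv, hsp, hsq, if_pos rfl]
        rw [e3]
        have := Finset.card_le_two (a := (c q, w)) (b := (c p, w))
        have := Finset.card_le_two (a := (c p, w)) (b := (c q, w))
        omega
  refine ⟨Function.update c w w, P ∪ N, ?_, ?_, ?_, ?_, ?_, ?_⟩
  · intro a
    by_cases ha : a = w
    · rw [ha, Function.update_self]
    · rw [Function.update_of_ne ha, h1]
  · intro a ha
    rw [Finset.mem_insert] at ha
    rcases ha with rfl | ha
    · rw [Function.update_self]
      exact Finset.mem_insert_self _ _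
    · rw [Function.update_of_ne (hne a ha)]
      exact Finset.mem_insert_of_mem (h2 a ha)
  · intro a b hab hv
    rcases hab with hab | hab | hab
    · obtain ⟨ha, hb⟩ := hH a b hab
      rw [Function.update_of_ne (hne a ha), Function.update_of_ne (hne b hb)]
      exact h3 a b hab hv
    · rw [Prod.mk.injEq] at hab
      obtain ⟨rfl, rfl⟩ := hab
      exact absurd hv.symm hwp
    · have hab : (a, b) = (w, q) := hab
      rw [Prod.mk.injEq] at hab
      obtain ⟨rfl, rfl⟩ := hab
      exact absurd hv hwq
  · intro a b hab hv hv'
    rw [Finset.mem_union]
    rcases hab with hab | hab | hab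
    · obtain ⟨ha, hb⟩ := hH a b hab
      rw [Function.update_of_ne (hne a ha), Function.update_of_ne (hne b hb)]
      exact Or.inl (h4 a b hab hv hv')
    · rw [Prod.mk.injEq] at hab
      obtain ⟨rfl, rfl⟩ := hab
      right
      rw [Function.update_self, Function.update_of_ne hpw]
      simp [N, hv, hv']
    · have hab : (a, b) = (w, q) := hab
      rw [Prod.mk.injEq] at hab
      obtain ⟨rfl, rfl⟩ := hab
      right
      rw [Function.update_self, Function.update_of_ne hqw]
      simp [N, hv, hv']
  · intro a b hab hv hv'
    rw [Finset.mem_union]
    rcases hab with hab | hab | hab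
    · obtain ⟨ha, hb⟩ := hH a b hab
      rw [Function.update_of_ne (hne a ha), Function.update_of_ne (hne b hb)]
      exact Or.inl (h5 a b hab hv hv')
    · rw [Prod.mk.injEq] at hab
      obtain ⟨rfl, rfl⟩ := hab
      right
      rw [Function.update_self, Function.update_of_ne hpw]
      simp [N, hv, hv']
    · have hab : (a, b) = (w, q) := hab
      rw [Prod.mk.injEq] at hab
      obtain ⟨rfl, rfl⟩ := hab
      right
      rw [Function.update_self, Function.update_of_ne hqw]
      simp [N, hv, hv']
  · rw [hcard]
    have := Finset.card_union_le P N
    omega

theorem inv_delete {S : Finset B} {H : Set (B × B)} {L1 L2 : List B} {p q w : B}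
    (hH : ∀ a b, (a, b) ∈ H → a ∈ S ∧ b ∈ S) (hpw : (p, w) ∈ H) (hwq : (w, q) ∈ H)
    (h : Inv vert sd S H (L1 ++ p :: w :: q :: L2)) :
    Inv vert sd S (H ∪ {(p, q)}) (L1 ++ p :: q :: L2) := by
  obtain ⟨c, P, h1, h2, h3, h4, h5, h6⟩ := h
  obtain ⟨hp, hw⟩ := hH p w hpw
  obtain ⟨-, hq⟩ := hH w q hwq
  rw [bs_three] at h6
  unfold Inv
  rw [bs_two]
  by_cases hvwp : vert w = vert p
  · have hcw : c p = c w := h3 p w hpw hvwp.symm
    refine ⟨c, P, h1, h2, ?_, ?_, ?_, ?_⟩
    · intro a b hab hv
      rcases hab with hab | hab
      · exact h3 a b hab hv
      · have hab : (a, b) = (p, q) := hab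
        rw [Prod.mk.injEq] at hab
        obtain ⟨rfl, rfl⟩ := hab
        rw [hcw]
        exact h3 w b hwq (hvwp.trans hv)
    · intro a b hab hv hv'
      rcases hab with hab | hab
      · exact h4 a b hab hv hv'
      · have hab : (a, b) = (p, q) := hab
        rw [Prod.mk.injEq] at hab
        obtain ⟨rfl, rfl⟩ := hab
        rw [hcw]
        exact h4 w b hwq (hvwp ▸ hv) hv'
    · intro a b hab hv hv'
      rcases hab with hab | hab
      · exact h5 a b hab hv hv'
      · have hab : (a, b) = (p, q) := hab
        rw [Prod.mk.injEq] at hab
        obtain ⟨rfl, rfl⟩ := hab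
        rw [hcw]
        exact h5 w b hwq (hvwp ▸ hv) hv'
    · have e2 : bw vert sd w q = bw vert sd p q := by unfold bw; rw [hvwp]
      rw [e2] at h6
      omega
  by_cases hvwq : vert w = vert q
  · have hcw : c w = c q := h3 w q hwq hvwq
    refine ⟨c, P, h1, h2, ?_, ?_, ?_, ?_⟩
    · intro a b hab hv
      rcases hab with hab | hab
      · exact h3 a b hab hv
      · have hab : (a, b) = (p, q) := hab
        rw [Prod.mk.injEq] at hab
        obtain ⟨rfl, rfl⟩ := hab
        rw [← hcw]
        exact h3 a w hpw (hv.trans hvwq.symm)
    · intro a b hab hv hv'
      rcases hab with hab | hab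
      · exact h4 a b hab hv hv'
      · have hab : (a, b) = (p, q) := hab
        rw [Prod.mk.injEq] at hab
        obtain ⟨rfl, rfl⟩ := hab
        rw [← hcw]
        exact h4 a w hpw hv (hvwq ▸ hv')
    · intro a b hab hv hv'
      rcases hab with hab | hab
      · exact h5 a b hab hv hv'
      · have hab : (a, b) = (p, q) := hab
        rw [Prod.mk.injEq] at hab
        obtain ⟨rfl, rfl⟩ := hab
        rw [← hcw]
        exact h5 a w hpw hv (hvwq ▸ hv')
    · have e2 : bw vert sd p w = bw vert sd p q := by unfold bw; rw [hvwq]
      rw [e2] at h6
      omega
  have e1 : bw vert sd p w = if sd (vert p) = sd (vert w) then 2 else 1 := by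
    unfold bw; rw [if_neg (fun h => hvwp h.symm)]
  have e2 : bw vert sd w q = if sd (vert w) = sd (vert q) then 2 else 1 := by
    unfold bw; rw [if_neg hvwq]
  rw [e1, e2] at h6
  by_cases hv : vert p = vert q
  · have e3 : bw vert sd p q = 0 := by unfold bw; rw [if_pos hv]
    rw [e3]
    by_cases hc : c p = c q
    · refine ⟨c, P, h1, h2, ?_, ?_, ?_, ?_⟩
      · intro a b hab hv
        rcases hab with hab | hab
        · exact h3 a b hab hv
        · have hab : (a, b) = (p, q) := hab
          rw [Prod.mk.injEq] at hab
          obtain ⟨rfl, rfl⟩ := hab
          exact hc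
      · intro a b hab hs hs'
        rcases hab with hab | hab
        · exact h4 a b hab hs hs'
        · have hab : (a, b) = (p, q) := hab
          rw [Prod.mk.injEq] at hab
          obtain ⟨rfl, rfl⟩ := hab
          rw [hv, hs'] at hs
          exact absurd hs (by simp)
      · intro a b hab hs hs'
        rcases hab with hab | hab
        · exact h5 a b hab hs hs'
        · have hab : (a, b) = (p, q) := hab
          rw [Prod.mk.injEq] at hab
          obtain ⟨rfl, rfl⟩ := hab
          rw [hv, hs'] at hs
          exact absurd hs (by simp)
      · omega
    · -- merge the classes of `p` and `q`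
      let r : B → B := fun u => if u = c q then c p else u
      let f : B × B → B × B := fun e => (r e.1, r e.2)
      have hr1 : r (c p) = c p := by simp [r, hc]
      have hr2 : r (c q) = c p := by simp [r]
      have hrv : ∀ u, vert (r u) = vert u := by
        intro u
        simp only [r]
        split_ifs with hu
        · rw [hu, h1, h1, hv]
        · rfl
      have himg : S.image (r ∘ c) = (S.image c).erase (c q) := by
        ext u
        rw [Finset.mem_erase, Finset.mem_image, Finset.mem_image]
        constructor
        · rintro ⟨a, ha, rfl⟩
          simp only [Function.comp, r]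
          split_ifs with hu
          · exact ⟨hc, p, hp, rfl⟩
          · exact ⟨hu, a, ha, rfl⟩
        · rintro ⟨hu, a, ha, rfl⟩
          refine ⟨a, ha, ?_⟩
          simp only [Function.comp, r, if_neg hu]
      have hcard : (S.image (r ∘ c)).card + 1 = (S.image c).card := by
        rw [himg, Finset.card_erase_add_one (Finset.mem_image_of_mem c hq)]
      have hPcard : 2 * (P.image f).card + 4 ≤ 2 * P.card +
          (if sd (vert p) = sd (vert w) then 2 else 1) +
          (if sd (vert w) = sd (vert q) then 2 else 1) := by
        rw [← hv]
        by_cases hs : sd (vert p) = sd (vert w)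
        · rw [if_pos hs, if_pos hs.symm]
          have := Finset.card_image_le (s := P) (f := f)
          omega
        · rw [if_neg hs, if_neg (fun h => hs h.symm)]
          -- two pairs are identified
          have key : ∀ e1 e2 : B × B, e1 ∈ P → e2 ∈ P → e1 ≠ e2 → f e1 = f e2 →
              (P.image f).card + 1 ≤ P.card := by
            intro e1 e2 he1 he2 hne hfe
            have hsub : P.image f = (P.erase e1).image f := by
              ext z
              rw [Finset.mem_image, Finset.mem_image]
              constructor
              · rintro ⟨e, he, rfl⟩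
                by_cases hee : e = e1
                · exact ⟨e2, Finset.mem_erase.2 ⟨hne.symm, he2⟩, by rw [hee, hfe]⟩
                · exact ⟨e, Finset.mem_erase.2 ⟨hee, he⟩, rfl⟩
              · rintro ⟨e, he, rfl⟩
                exact ⟨e, Finset.mem_of_mem_erase he, rfl⟩
            rw [hsub]
            have := Finset.card_image_le (s := P.erase e1) (f := f)
            have h7 := Finset.card_erase_add_one he1
            omega
          have hfin : (P.image f).card + 1 ≤ P.card := by
            cases hsp : sd (vert p)
            · have hsw : sd (vert w) = true := by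
                cases h : sd (vert w)
                · rw [hsp, h] at hs; exact absurd rfl hs
                · rfl
              have hsq : sd (vert q) = false := by rw [← hv]; exact hsp
              refine key (c w, c p) (c w, c q) (h5 p w hpw hsp hsw) (h4 w q hwq hsw hsq) ?_ ?_
              · intro h; exact hc (Prod.mk.inj h).2
              · simp only [f, hr1, hr2]
            · have hsw : sd (vert w) = false := by
                cases h : sd (vert w)
                · rfl
                · rw [hsp, h] at hs; exact absurd rfl hs
              have hsq : sd (vert q) = true := by rw [← hv]; exact hsp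
              refine key (c p, c w) (c q, c w) (h4 p w hpw hsp hsw) (h5 w q hwq hsw hsq) ?_ ?_
              · intro h; exact hc (Prod.mk.inj h).1
              · simp only [f, hr1, hr2]
          omega
      refine ⟨r ∘ c, P.image f, ?_, ?_, ?_, ?_, ?_, ?_⟩
      · intro a
        simp only [Function.comp]
        rw [hrv, h1]
      · intro a ha
        simp only [Function.comp, r]
        split_ifs
        · exact h2 p hp
        · exact h2 a ha
      · intro a b hab hv'
        rcases hab with hab | hab
        · simp only [Function.comp]
          rw [h3 a b hab hv']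
        · have hab : (a, b) = (p, q) := hab
          rw [Prod.mk.injEq] at hab
          obtain ⟨rfl, rfl⟩ := hab
          simp only [Function.comp]
          rw [hr1, hr2]
      · intro a b hab hs hs'
        rcases hab with hab | hab
        · exact Finset.mem_image_of_mem f (h4 a b hab hs hs')
        · have hab : (a, b) = (p, q) := hab
          rw [Prod.mk.injEq] at hab
          obtain ⟨rfl, rfl⟩ := hab
          rw [hv, hs'] at hs
          exact absurd hs (by simp)
      · intro a b hab hs hs'
        rcases hab with hab | hab
        · exact Finset.mem_image_of_mem f (h5 a b hab hs hs')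
        · have hab : (a, b) = (p, q) := hab
          rw [Prod.mk.injEq] at hab
          obtain ⟨rfl, rfl⟩ := hab
          rw [hv, hs'] at hs
          exact absurd hs (by simp)
      · omega
  · -- different vertices
    by_cases hs : sd (vert p) = sd (vert q)
    · have e3 : bw vert sd p q = 2 := by unfold bw; rw [if_neg hv, if_pos hs]
      rw [e3]
      refine ⟨c, P, h1, h2, ?_, ?_, ?_, ?_⟩
      · intro a b hab hv'
        rcases hab with hab | hab
        · exact h3 a b hab hv'
        · have hab : (a, b) = (p, q) := hab
          rw [Prod.mk.injEq] at hab
          obtain ⟨rfl, rfl⟩ := hab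
          exact absurd hv' hv
      · intro a b hab hs1 hs2
        rcases hab with hab | hab
        · exact h4 a b hab hs1 hs2
        · have hab : (a, b) = (p, q) := hab
          rw [Prod.mk.injEq] at hab
          obtain ⟨rfl, rfl⟩ := hab
          rw [hs, hs2] at hs1
          exact absurd hs1 (by simp)
      · intro a b hab hs1 hs2
        rcases hab with hab | hab
        · exact h5 a b hab hs1 hs2
        · have hab : (a, b) = (p, q) := hab
          rw [Prod.mk.injEq] at hab
          obtain ⟨rfl, rfl⟩ := hab
          rw [hs, hs2] at hs1
          exact absurd hs1 (by simp)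
      · rw [← hs] at h6
        by_cases hsw : sd (vert p) = sd (vert w)
        · rw [if_pos hsw, if_pos hsw.symm] at h6
          omega
        · rw [if_neg hsw, if_neg (fun h => hsw h.symm)] at h6
          omega
    · have e3 : bw vert sd p q = 1 := by unfold bw; rw [if_neg hv, if_neg hs]
      rw [e3]
      have e4 : (if sd (vert p) = sd (vert w) then 2 else 1) +
          (if sd (vert w) = sd (vert q) then 2 else 1) = 3 := by
        cases h1 : sd (vert p) <;> cases h2 : sd (vert q) <;> cases h3 : sd (vert w) <;>
          simp [h1, h2] at hs ⊢
      cases hsp : sd (vert p)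
      · have hsq : sd (vert q) = true := by
          cases h : sd (vert q)
          · rw [hsp, h] at hs; exact absurd rfl hs
          · rfl
        refine ⟨c, insert (c q, c p) P, h1, h2, ?_, ?_, ?_, ?_⟩
        · intro a b hab hv'
          rcases hab with hab | hab
          · exact h3 a b hab hv'
          · have hab : (a, b) = (p, q) := hab
            rw [Prod.mk.injEq] at hab
            obtain ⟨rfl, rfl⟩ := hab
            exact absurd hv' hv
        · intro a b hab hs1 hs2
          rcases hab with hab | hab
          · exact Finset.mem_insert_of_mem (h4 a b hab hs1 hs2)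
          · have hab : (a, b) = (p, q) := hab
            rw [Prod.mk.injEq] at hab
            obtain ⟨rfl, rfl⟩ := hab
            rw [hsp] at hs1
            exact absurd hs1 (by simp)
        · intro a b hab hs1 hs2
          rcases hab with hab | hab
          · exact Finset.mem_insert_of_mem (h5 a b hab hs1 hs2)
          · have hab : (a, b) = (p, q) := hab
            rw [Prod.mk.injEq] at hab
            obtain ⟨rfl, rfl⟩ := hab
            exact Finset.mem_insert_self _ _
        · have := Finset.card_insert_le (c q, c p) P
          omega
      · have hsq : sd (vert q) = false := by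
          cases h : sd (vert q)
          · rfl
          · rw [hsp, h] at hs; exact absurd rfl hs
        refine ⟨c, insert (c p, c q) P, h1, h2, ?_, ?_, ?_, ?_⟩
        · intro a b hab hv'
          rcases hab with hab | hab
          · exact h3 a b hab hv'
          · have hab : (a, b) = (p, q) := hab
            rw [Prod.mk.injEq] at hab
            obtain ⟨rfl, rfl⟩ := hab
            exact absurd hv' hv
        · intro a b hab hs1 hs2
          rcases hab with hab | hab
          · exact Finset.mem_insert_of_mem (h4 a b hab hs1 hs2)
          · have hab : (a, b) = (p, q) := hab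
            rw [Prod.mk.injEq] at hab
            obtain ⟨rfl, rfl⟩ := hab
            exact Finset.mem_insert_self _ _
        · intro a b hab hs1 hs2
          rcases hab with hab | hab
          · exact Finset.mem_insert_of_mem (h5 a b hab hs1 hs2)
          · have hab : (a, b) = (p, q) := hab
            rw [Prod.mk.injEq] at hab
            obtain ⟨rfl, rfl⟩ := hab
            rw [hsp] at hs1
            exact absurd hs1 (by simp)
        · have := Finset.card_insert_le (c p, c q) P
          omega

end sweep

end Pool.Agent.R88.UB
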