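import Pool.Agent.R88.UB.Constr

/-!
# The upper bound `ub(K_{m,n}) ≤ m / 4 + 12`
-/

set_option autoImplicit false

namespace Pool.Agent.R88.UB

open Finset
open scoped Classical

/-- labels of the bars of the first side -/
def xl (m J M : ℕ) (z : ℕ × ℕ) : ℕ :=
  if z.1 < 8 then
    (if z.2 + 1 < J ∧ z.2 + (J - 1) * (z.1 / 2) < m then z.2 + (J - 1) * (z.1 / 2) else 0)
  else
    (if 1 ≤ z.2 ∧ z.2 ≤ 2 * M ∧ (z.2 - 1) + 2 * M * (((z.1 - 8) / 2) % 2) < m then
      (z.2 - 1) + 2 * M * (((z.1 - 8) / 2) % 2) else (z.1 - 8) / 2)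

/-- labels of the bars of the second side -/
def yl (K : ℕ) (z : ℕ × ℕ) : ℕ :=
  if z.1 < 8 then 2 * K + ((if z.1 = 3 then 2 * z.2 else 2 * z.2 + 1) % 3)
  else 2 * ((z.1 - 9) / 2) + z.2 % 2

theorem cover_B {b : Bool} {K M J m x y : ℕ} (hx : x < m) (hm : m ≤ 4 * M) (hy : y < 2 * K) :
    ∃ z z' : {z // z ∈ TT b K M J}, z.1.1 % 2 = 0 ∧ xl m J M z.1 = x ∧ z'.1.1 % 2 = 1 ∧
      yl K z'.1 = y ∧ Vis (lpos (TT b K M J) (PP J)) (lht (TT b K M J)) z z' := by
  have hM : 0 < 2 * M := by omega
  obtain ⟨i, hi⟩ : ∃ i, i = y / 2 := ⟨_, rfl⟩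
  obtain ⟨j0, hj0⟩ : ∃ j0, j0 = x % (2 * M) := ⟨_, rfl⟩
  obtain ⟨h, hh⟩ : ∃ h, h = x / (2 * M) := ⟨_, rfl⟩
  have hj0' : j0 < 2 * M := by rw [hj0]; exact Nat.mod_lt _ hM
  have hxx : j0 + 2 * M * h = x := by rw [hj0, hh]; exact Nat.mod_add_div x (2 * M)
  have hh2 : h < 2 := by
    rw [hh, Nat.div_lt_iff_lt_mul hM]
    omega
  have hiK : i < K := by omega
  by_cases hih : i % 2 = h
  · -- the bar of the first side is below
    have hz : (8 + 2 * i, j0 + 1) ∈ TT b K M J := by
      rw [mem_TT, mem_TB]; left; omega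
    have hxl : xl m J M (8 + 2 * i, j0 + 1) = x := by
      unfold xl
      have e1 : (8 + 2 * i - 8) / 2 = i := by omega
      have e2 : j0 + 1 - 1 = j0 := by omega
      simp only [e1, e2, hih, hxx]
      rw [if_neg (by omega), if_pos (by omega)]
    have hP : PP J (8 + 2 * i) (j0 + 1) = (j0 : ℝ) + 1 + i := by
      rw [PP_ge (by omega)]; push_cast; ring
    rcases Nat.eq_zero_or_pos ((j0 + 1 + y) % 2) with hpar | hpar
    · have hz' : (9 + 2 * i, j0 + 1) ∈ TT b K M J := by
        rw [mem_TT, mem_TB]; left; omega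
      have hP' : PP J (9 + 2 * i) (j0 + 1) = (j0 : ℝ) + 1 + i + 1 / 2 := by
        rw [PP_ge (by omega)]; push_cast; ring
      refine ⟨⟨_, hz⟩, ⟨_, hz'⟩, ?_, hxl, ?_, ?_, ?_⟩
      · change (8 + 2 * i) % 2 = 0; omega
      · change (9 + 2 * i) % 2 = 1; omega
      · simp only [yl]
        rw [if_neg (by omega)]
        omega
      · refine vis_pair (PP_mono J) hz hz' (by omega) (α := (j0 : ℝ) + 1 + i + 5 / 8)
          (β := (j0 : ℝ) + 1 + i + 7 / 8) (by linarith) ?_ ?_ ?_ ?_ ?_
        · rw [hP]; linarith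
        · rw [hP]; linarith
        · rw [hP']; linarith
        · rw [hP']; linarith
        · intro q hq; omega
    · have hz' : (9 + 2 * i, j0) ∈ TT b K M J := by
        rw [mem_TT, mem_TB]; left; omega
      have hP' : PP J (9 + 2 * i) j0 = (j0 : ℝ) + i + 1 / 2 := by
        rw [PP_ge (by omega)]; push_cast; ring
      refine ⟨⟨_, hz⟩, ⟨_, hz'⟩, ?_, hxl, ?_, ?_, ?_⟩
      · change (8 + 2 * i) % 2 = 0; omega
      · change (9 + 2 * i) % 2 = 1; omega
      · simp only [yl]
        rw [if_neg (by omega)]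
        omega
      · refine vis_pair (PP_mono J) hz hz' (by omega) (α := (j0 : ℝ) + 1 + i + 1 / 8)
          (β := (j0 : ℝ) + 1 + i + 3 / 8) (by linarith) ?_ ?_ ?_ ?_ ?_
        · rw [hP]; linarith
        · rw [hP]; linarith
        · rw [hP']; linarith
        · rw [hP']; linarith
        · intro q hq; omega
  · -- the bar of the first side is above
    have hih' : (i + 1) % 2 = h := by omega
    have hz : (10 + 2 * i, j0 + 1) ∈ TT b K M J := by
      rw [mem_TT, mem_TB]; left; omega
    have hxl : xl m J M (10 + 2 * i, j0 + 1) = x := by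
      unfold xl
      have e1 : (10 + 2 * i - 8) / 2 = i + 1 := by omega
      have e2 : j0 + 1 - 1 = j0 := by omega
      simp only [e1, e2, hih', hxx]
      rw [if_neg (by omega), if_pos (by omega)]
    have hP : PP J (10 + 2 * i) (j0 + 1) = (j0 : ℝ) + 1 + i + 1 := by
      rw [PP_ge (by omega)]; push_cast; ring
    rcases Nat.eq_zero_or_pos ((j0 + 1 + y) % 2) with hpar | hpar
    · have hz' : (9 + 2 * i, j0 + 1) ∈ TT b K M J := by
        rw [mem_TT, mem_TB]; left; omega
      have hP' : PP J (9 + 2 * i) (j0 + 1) = (j0 : ℝ) + 1 + i + 1 / 2 := by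
        rw [PP_ge (by omega)]; push_cast; ring
      refine ⟨⟨_, hz⟩, ⟨_, hz'⟩, ?_, hxl, ?_, ?_, ?_⟩
      · change (10 + 2 * i) % 2 = 0; omega
      · change (9 + 2 * i) % 2 = 1; omega
      · simp only [yl]
        rw [if_neg (by omega)]
        omega
      · refine vis_pair (PP_mono J) hz hz' (by omega) (α := (j0 : ℝ) + 1 + i + 9 / 8)
          (β := (j0 : ℝ) + 1 + i + 11 / 8) (by linarith) ?_ ?_ ?_ ?_ ?_
        · rw [hP]; linarith
        · rw [hP]; linarith
        · rw [hP']; linarith
        · rw [hP']; linarith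
        · intro q hq; omega
    · have hz' : (9 + 2 * i, j0 + 2) ∈ TT b K M J := by
        rw [mem_TT, mem_TB]; left; omega
      have hP' : PP J (9 + 2 * i) (j0 + 2) = (j0 : ℝ) + 2 + i + 1 / 2 := by
        rw [PP_ge (by omega)]; push_cast; ring
      refine ⟨⟨_, hz⟩, ⟨_, hz'⟩, ?_, hxl, ?_, ?_, ?_⟩
      · change (10 + 2 * i) % 2 = 0; omega
      · change (9 + 2 * i) % 2 = 1; omega
      · simp only [yl]
        rw [if_neg (by omega)]
        omega
      · refine vis_pair (PP_mono J) hz hz' (by omega) (α := (j0 : ℝ) + 1 + i + 13 / 8)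
          (β := (j0 : ℝ) + 1 + i + 15 / 8) (by linarith) ?_ ?_ ?_ ?_ ?_
        · rw [hP]; linarith
        · rw [hP]; linarith
        · rw [hP']; linarith
        · rw [hP']; linarith
        · intro q hq; omega

theorem PP_s {J q k : ℕ} (hq : q = 1 ∨ q = 2 ∨ q = 4 ∨ q = 5) :
    PP J q k = (k : ℝ) + sh J k - (J + 10) := by
  rcases hq with rfl | rfl | rfl | rfl <;> simp [PP, off]

theorem PP_o {J q k : ℕ} (hq : q = 0 ∨ q = 6) :
    PP J q k = (k : ℝ) + sh J k + 1 / 2 - (J + 10) := by
  rcases hq with rfl | rfl <;> simp [PP, off] <;> ring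

theorem PP_3 {J k : ℕ} : PP J 3 k = (k : ℝ) - (J + 10) := by
  simp [PP, off]

theorem mod3a (j y : ℕ) (hy : y < 3) :
    (2 * j + 1) % 3 = y ∨ (2 * j + 2) % 3 = y ∨ (2 * j) % 3 = y := by
  rcases (by omega : j % 3 = 0 ∨ j % 3 = 1 ∨ j % 3 = 2) with h | h | h <;>
    rcases (by omega : y = 0 ∨ y = 1 ∨ y = 2) with rfl | rfl | rfl <;> omega

theorem mod3b (j y : ℕ) (hy : y < 3) :
    (2 * j + 1) % 3 = y ∨ (2 * j + 2) % 3 = y ∨ (2 * (j + 1) + 1) % 3 = y := by
  rcases (by omega : j % 3 = 0 ∨ j % 3 = 1 ∨ j % 3 = 2) with h | h | h <;>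
    rcases (by omega : y = 0 ∨ y = 1 ∨ y = 2) with rfl | rfl | rfl <;> omega

theorem cover_A {K M J m x y : ℕ} (hJ : J = M + 1) (hx : x < m) (hm : m ≤ 4 * M) (hy : y < 3) :
    ∃ z z' : {z // z ∈ TT true K M J}, z.1.1 % 2 = 0 ∧ xl m J M z.1 = x ∧ z'.1.1 % 2 = 1 ∧
      yl K z'.1 = 2 * K + y ∧ Vis (lpos (TT true K M J) (PP J)) (lht (TT true K M J)) z z' := by
  have hM : 0 < M := by omega
  obtain ⟨j, hj⟩ : ∃ j, j = x % M := ⟨_, rfl⟩
  obtain ⟨τ, hτ⟩ : ∃ τ, τ = x / M := ⟨_, rfl⟩
  have hjM : j < M := by rw [hj]; exact Nat.mod_lt _ hM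
  have hxx : j + M * τ = x := by rw [hj, hτ]; exact Nat.mod_add_div x M
  have hτ4 : τ < 4 := by
    rw [hτ, Nat.div_lt_iff_lt_mul hM]
    omega
  have hmem : ∀ r k : ℕ, (r < 7 ∧ k < J + 1 ∧ (r = 3 ∨ k < J) ∧ (r = 0 ∨ r = 6 → k + 1 < J)) →
      (r, k) ∈ TT true K M J := by
    intro r k h
    rw [mem_TT, mem_TA]
    exact Or.inr ⟨rfl, h⟩
  have hz : (2 * τ, j) ∈ TT true K M J := hmem _ _ (by omega)
  have hxl : xl m J M (2 * τ, j) = x := by
    unfold xl
    have e1 : 2 * τ / 2 = τ := by omega
    have e2 : J - 1 = M := by omega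
    simp only [e1, e2, hxx]
    rw [if_pos (by omega), if_pos (by omega)]
  -- real numbers
  have hs0 := sh_pos J j
  have hs1 := sh_lt_one (J := J) (k := j + 1) (by omega)
  have hs2 := sh_succ J j
  have hg0 := gap_pos J
  have hg1 := gap_lt (J := J) (by omega)
  obtain ⟨s, hs⟩ : ∃ s, s = sh J j := ⟨_, rfl⟩
  obtain ⟨g, hg⟩ : ∃ g : ℝ, g = 1 / (J + 2) := ⟨_, rfl⟩
  rw [← hs, ← hg] at hs2
  rw [hs2] at hs1
  rw [← hs] at hs0
  rw [← hg] at hg0 hg1
  -- the three bars of the second side
  obtain ⟨z', hz'2, hz'3, hz'4⟩ : ∃ z' : {z // z ∈ TT true K M J}, z'.1.1 % 2 = 1 ∧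
      yl K z'.1 = 2 * K + y ∧
      Vis (lpos (TT true K M J) (PP J)) (lht (TT true K M J)) ⟨(2 * τ, j), hz⟩ z' := by
    by_cases hin : τ = 1 ∨ τ = 2
    · -- inner rows
      obtain ⟨p, hp⟩ : ∃ p, p = if τ = 1 then 1 else 5 := ⟨_, rfl⟩
      have hpc : (2 * τ = 2 ∧ p = 1) ∨ (2 * τ = 4 ∧ p = 5) := by
        rcases hin with rfl | rfl
        · left; simp [hp]
        · right; simp [hp]
      have hPz : PP J (2 * τ) j = (j : ℝ) + s - (J + 10) := by
        rw [hs]; exact PP_s (by omega)
      rcases mod3a j y hy with h | h | h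
      · have hz' : (p, j) ∈ TT true K M J := hmem _ _ (by omega)
        have hPz' : PP J p j = (j : ℝ) + s - (J + 10) := by
          rw [hs]; exact PP_s (by omega)
        refine ⟨⟨_, hz'⟩, by change p % 2 = 1; omega, ?_, ?_⟩
        · simp only [yl]
          rw [if_pos (by omega), if_neg (by omega)]
          omega
        · refine vis_pair (PP_mono J) hz hz' (by omega)
            (α := (j : ℝ) + s + 1 / 4 - (J + 10)) (β := (j : ℝ) + s + 3 / 4 - (J + 10))
            (by linarith) ?_ ?_ ?_ ?_ ?_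
          · rw [hPz]; linarith
          · rw [hPz]; linarith
          · rw [hPz']; linarith
          · rw [hPz']; linarith
          · intro q hq; omega
      · have hz' : (3, j + 1) ∈ TT true K M J := hmem _ _ (by omega)
        have hPz' : PP J 3 (j + 1) = (j : ℝ) + 1 - (J + 10) := by
          rw [PP_3]; push_cast; ring
        refine ⟨⟨_, hz'⟩, by norm_num, ?_, ?_⟩
        · simp only [yl]
          rw [if_pos (by omega), if_pos trivial]
          omega
        · refine vis_pair (PP_mono J) hz hz' (by omega)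
            (α := (j : ℝ) + 1 + s / 3 - (J + 10)) (β := (j : ℝ) + 1 + 2 * s / 3 - (J + 10))
            (by linarith) ?_ ?_ ?_ ?_ ?_
          · rw [hPz]; linarith
          · rw [hPz]; linarith
          · rw [hPz']; linarith
          · rw [hPz']; linarith
          · intro q hq; omega
      · have hz' : (3, j) ∈ TT true K M J := hmem _ _ (by omega)
        have hPz' : PP J 3 j = (j : ℝ) - (J + 10) := by
          rw [PP_3]
        refine ⟨⟨_, hz'⟩, by norm_num, ?_, ?_⟩
        · simp only [yl]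
          rw [if_pos (by omega), if_pos trivial]
          omega
        · refine vis_pair (PP_mono J) hz hz' (by omega)
            (α := (j : ℝ) + s + (1 - s) / 3 - (J + 10))
            (β := (j : ℝ) + s + 2 * (1 - s) / 3 - (J + 10))
            (by linarith) ?_ ?_ ?_ ?_ ?_
          · rw [hPz]; linarith
          · rw [hPz]; linarith
          · rw [hPz']; linarith
          · rw [hPz']; linarith
          · intro q hq; omega
    · -- outer rows
      obtain ⟨p, hp⟩ : ∃ p, p = if τ = 0 then 1 else 5 := ⟨_, rfl⟩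
      have hpc : (2 * τ = 0 ∧ p = 1) ∨ (2 * τ = 6 ∧ p = 5) := by
        rcases (by omega : τ = 0 ∨ τ = 3) with rfl | rfl
        · left; simp [hp]
        · right; simp [hp]
      have hPz : PP J (2 * τ) j = (j : ℝ) + s + 1 / 2 - (J + 10) := by
        rw [hs]; exact PP_o (by omega)
      rcases mod3b j y hy with h | h | h
      · have hz' : (p, j) ∈ TT true K M J := hmem _ _ (by omega)
        have hPz' : PP J p j = (j : ℝ) + s - (J + 10) := by
          rw [hs]; exact PP_s (by omega)
        refine ⟨⟨_, hz'⟩, by change p % 2 = 1; omega, ?_, ?_⟩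
        · simp only [yl]
          rw [if_pos (by omega), if_neg (by omega)]
          omega
        · refine vis_pair (PP_mono J) hz hz' (by omega)
            (α := (j : ℝ) + s + 5 / 8 - (J + 10)) (β := (j : ℝ) + s + 7 / 8 - (J + 10))
            (by linarith) ?_ ?_ ?_ ?_ ?_
          · rw [hPz]; linarith
          · rw [hPz]; linarith
          · rw [hPz']; linarith
          · rw [hPz']; linarith
          · intro q hq; omega
      · have hz' : (3, j + 1) ∈ TT true K M J := hmem _ _ (by omega)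
        have hPz' : PP J 3 (j + 1) = (j : ℝ) + 1 - (J + 10) := by
          rw [PP_3]; push_cast; ring
        refine ⟨⟨_, hz'⟩, by norm_num, ?_, ?_⟩
        · simp only [yl]
          rw [if_pos (by omega), if_pos trivial]
          omega
        · refine vis_pair (PP_mono J) hz hz' (by omega)
            (α := (j : ℝ) + s + 1 + g / 3 - (J + 10)) (β := (j : ℝ) + s + 1 + 2 * g / 3 - (J + 10))
            (by linarith) ?_ ?_ ?_ ?_ ?_
          · rw [hPz]; linarith
          · rw [hPz]; linarith
          · rw [hPz']; linarith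
          · rw [hPz']; linarith
          · intro q hq
            refine ⟨j, ?_, ?_⟩
            · rw [PP_s (by omega), ← hs]
              linarith
            · rw [PP_s (by omega), hs2]
              push_cast
              linarith
      · have hz' : (p, j + 1) ∈ TT true K M J := hmem _ _ (by omega)
        have hPz' : PP J p (j + 1) = (j : ℝ) + 1 + (s + g) - (J + 10) := by
          rw [PP_s (by omega), hs2]; push_cast; ring
        refine ⟨⟨_, hz'⟩, by change p % 2 = 1; omega, ?_, ?_⟩
        · simp only [yl]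
          rw [if_pos (by omega), if_neg (by omega)]
          omega
        · refine vis_pair (PP_mono J) hz hz' (by omega)
            (α := (j : ℝ) + 1 + s + g + (1 / 2 - g) / 3 - (J + 10))
            (β := (j : ℝ) + 1 + s + g + 2 * (1 / 2 - g) / 3 - (J + 10))
            (by linarith) ?_ ?_ ?_ ?_ ?_
          · rw [hPz]; linarith
          · rw [hPz]; linarith
          · rw [hPz']; linarith
          · rw [hPz']; linarith
          · intro q hq; omega
  exact ⟨⟨(2 * τ, j), hz⟩, z', by change (2 * τ) % 2 = 0; omega, hxl, hz'2, hz'3, hz'4⟩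

/-! ## Counting -/

theorem count_XB {K M J m x : ℕ} (hM : 1 ≤ M) (hm : 4 * M ≤ m + 3) :
    ((TB K M).filter (fun z => z.1 % 2 = 0 ∧ xl m J M z = x)).card ≤ K / 2 + 6 := by
  have hsub : (TB K M).filter (fun z => z.1 % 2 = 0 ∧ xl m J M z = x) ⊆
      (range (K / 2 + 1)).image (fun i0 => (8 + 2 * (2 * i0 + x / (2 * M)), x % (2 * M) + 1)) ∪
      (({0, 2 * M + 1, 2 * M, 2 * M - 1, 2 * M - 2} : Finset ℕ).image
        (fun k => (8 + 2 * x, k))) := by
    rintro ⟨r, k⟩ hz
    rw [Finset.mem_filter, mem_TB] at hz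
    obtain ⟨⟨h1, h2, h3⟩, h4, h5⟩ := hz
    simp only at h4
    unfold xl at h5
    simp only at h5
    rw [if_neg (by omega)] at h5
    obtain ⟨i, hi⟩ : ∃ i, i = (r - 8) / 2 := ⟨_, rfl⟩
    rw [← hi] at h5
    have hr : r = 8 + 2 * i := by omega
    rw [Finset.mem_union, Finset.mem_image, Finset.mem_image]
    split_ifs at h5 with hc
    · left
      have hx1 : x / (2 * M) = i % 2 := by
        rw [← h5, Nat.add_mul_div_left _ _ (by omega), Nat.div_eq_of_lt (by omega), Nat.zero_add]
      have hx2 : x % (2 * M) = k - 1 := by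
        rw [← h5, Nat.add_mul_mod_self_left, Nat.mod_eq_of_lt (by omega)]
      refine ⟨i / 2, ?_, ?_⟩
      · rw [Finset.mem_range]; omega
      · rw [hx1, hx2]
        apply Prod.ext
        · simp only; omega
        · simp only; omega
    · right
      refine ⟨k, ?_, ?_⟩
      · simp only [Finset.mem_insert, Finset.mem_singleton]
        have hmod : i % 2 = 0 ∨ i % 2 = 1 := by omega
        rcases hmod with h6 | h6 <;> rw [h6] at hc <;> omega
      · apply Prod.ext
        · simp only; omega
        · rfl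
  refine (Finset.card_le_card hsub).trans ?_
  refine (Finset.card_union_le _ _).trans ?_
  have h1 : ((range (K / 2 + 1)).image
      (fun i0 => (8 + 2 * (2 * i0 + x / (2 * M)), x % (2 * M) + 1))).card ≤ K / 2 + 1 := by
    refine Finset.card_image_le.trans ?_
    rw [Finset.card_range]
  have h2 : (({0, 2 * M + 1, 2 * M, 2 * M - 1, 2 * M - 2} : Finset ℕ).image
        (fun k => (8 + 2 * x, k))).card ≤ 5 := by
    refine Finset.card_image_le.trans ?_
    exact Finset.card_le_five
  omega

theorem count_XA {M J m x : ℕ} (hM : 1 ≤ M) (hJ : J = M + 1) (hm : 4 * M ≤ m + 3) :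
    ((TA J).filter (fun z => z.1 % 2 = 0 ∧ xl m J M z = x)).card ≤ 6 := by
  have hsub : (TA J).filter (fun z => z.1 % 2 = 0 ∧ xl m J M z = x) ⊆
      ({(2 * (x / M), x % M), (2, M), (4, M)} : Finset (ℕ × ℕ)) ∪
      (TA J).filter (fun z => z.1 % 2 = 0 ∧ z.2 < M ∧ m ≤ z.2 + M * (z.1 / 2)) := by
    rintro ⟨r, k⟩ hz
    rw [Finset.mem_filter] at hz
    obtain ⟨h0, h4, h5⟩ := hz
    obtain ⟨h1, h2, h3, h6⟩ := mem_TA.1 h0
    simp only at h4
    unfold xl at h5
    simp only at h5
    rw [if_pos (by omega)] at h5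
    have e2 : J - 1 = M := by omega
    rw [e2] at h5
    rw [Finset.mem_union]
    split_ifs at h5 with hc
    · left
      have hkM : k < M := by omega
      have hx1 : x / M = r / 2 := by
        rw [← h5, Nat.add_mul_div_left _ _ (by omega), Nat.div_eq_of_lt hkM, Nat.zero_add]
      have hx2 : x % M = k := by
        rw [← h5, Nat.add_mul_mod_self_left, Nat.mod_eq_of_lt hkM]
      simp only [Finset.mem_insert, Finset.mem_singleton, Prod.mk.injEq]
      left
      omega
    · by_cases hkM : k < M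
      · right
        rw [Finset.mem_filter]
        refine ⟨h0, h4, hkM, ?_⟩
        simp only
        by_contra hcon
        exact hc ⟨by omega, by omega⟩
      · left
        simp only [Finset.mem_insert, Finset.mem_singleton, Prod.mk.injEq]
        right
        omega
  refine (Finset.card_le_card hsub).trans ?_
  refine (Finset.card_union_le _ _).trans ?_
  have h1 : ({(2 * (x / M), x % M), (2, M), (4, M)} : Finset (ℕ × ℕ)).card ≤ 3 :=
    Finset.card_le_three
  have h2 : ((TA J).filter (fun z => z.1 % 2 = 0 ∧ z.2 < M ∧ m ≤ z.2 + M * (z.1 / 2))).card ≤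
      (Finset.Ico m (4 * M)).card := by
    apply Finset.card_le_card_of_injOn (fun z => z.2 + M * (z.1 / 2))
    · rintro ⟨r, k⟩ hz
      have hz' := Finset.mem_filter.1 hz
      obtain ⟨h3, h4, h5, h6⟩ := hz'
      have h7 := mem_TA.1 h3
      simp only at h4 h5 h6
      rw [Finset.coe_Ico, Set.mem_Ico]
      refine ⟨h6, ?_⟩
      change k + M * (r / 2) < 4 * M
      have h8 : r / 2 ≤ 3 := by omega
      have h9 : M * (r / 2) ≤ M * 3 := Nat.mul_le_mul_left _ h8
      omega
    · rintro ⟨r, k⟩ hz ⟨r', k'⟩ hz' heq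
      have hz1 := Finset.mem_filter.1 hz
      obtain ⟨h3, h4, h5, h6⟩ := hz1
      have hz1' := Finset.mem_filter.1 hz'
      obtain ⟨h3', h4', h5', h6'⟩ := hz1'
      simp only at h4 h5 h4' h5' heq
      have hd : (k + M * (r / 2)) / M = (k' + M * (r' / 2)) / M := congrArg (fun t => t / M) heq
      rw [Nat.add_mul_div_left _ _ (by omega), Nat.div_eq_of_lt h5, Nat.zero_add,
        Nat.add_mul_div_left _ _ (by omega), Nat.div_eq_of_lt h5', Nat.zero_add] at hd
      rw [hd] at heq
      have hk : k = k' := by omega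
      have hr : r = r' := by omega
      rw [hk, hr]
  rw [Nat.card_Ico] at h2
  omega

theorem count_YB {K M y : ℕ} :
    ((TB K M).filter (fun z => z.1 % 2 = 1 ∧ yl K z = y)).card ≤ M + 1 := by
  have hsub : (TB K M).filter (fun z => z.1 % 2 = 1 ∧ yl K z = y) ⊆
      (range (M + 1)).image (fun k0 => (9 + 2 * (y / 2), 2 * k0 + y % 2)) := by
    rintro ⟨r, k⟩ hz
    rw [Finset.mem_filter, mem_TB] at hz
    obtain ⟨⟨h1, h2, h3⟩, h4, h5⟩ := hz
    simp only at h4
    unfold yl at h5
    simp only at h5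
    rw [if_neg (by omega)] at h5
    rw [Finset.mem_image]
    refine ⟨k / 2, ?_, ?_⟩
    · rw [Finset.mem_range]; omega
    · apply Prod.ext
      · simp only; omega
      · simp only; omega
  refine (Finset.card_le_card hsub).trans (Finset.card_image_le.trans ?_)
  rw [Finset.card_range]

theorem count_YA {K J y : ℕ} :
    ((TA J).filter (fun z => z.1 % 2 = 1 ∧ yl K z = y)).card ≤ J + 3 := by
  have h : ((TA J).filter (fun z => z.1 % 2 = 1 ∧ yl K z = y)).card ≤
      ((range 3) ×ˢ (range (J / 3 + 1))).card := by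
    apply Finset.card_le_card_of_injOn (fun z => (z.1 / 2, z.2 / 3))
    · rintro ⟨r, k⟩ hz
      obtain ⟨h3, h4, h5⟩ := Finset.mem_filter.1 hz
      have h7 := mem_TA.1 h3
      simp only at h4
      rw [Finset.mem_coe, Finset.mem_product, Finset.mem_range, Finset.mem_range]
      simp only
      omega
    · rintro ⟨r, k⟩ hz ⟨r', k'⟩ hz' heq
      obtain ⟨h3, h4, h5⟩ := Finset.mem_filter.1 hz
      obtain ⟨h3', h4', h5'⟩ := Finset.mem_filter.1 hz'
      have h7 := mem_TA.1 h3
      have h7' := mem_TA.1 h3'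
      simp only [Prod.mk.injEq] at heq
      simp only at h4 h4'
      have hr : r = r' := by omega
      subst hr
      unfold yl at h5 h5'
      simp only at h5 h5'
      rw [if_pos (by omega)] at h5 h5'
      have hk : k = k' := by
        split_ifs at h5 h5' <;> omega
      rw [hk]
  rw [Finset.card_product, Finset.card_range, Finset.card_range] at h
  omega

theorem exists_rep {m n : ℕ} (hn : 2 ≤ n) (hnm : n ≤ m) :
    ∃ R, IsRep (completeBipartiteGraph (Fin m) (Fin n)) (m / 4 + 12) R := by
  obtain ⟨b, K, hK⟩ : ∃ (b : Bool) (K : ℕ), (b = false ∧ n = 2 * K) ∨ (b = true ∧ n = 2 * K + 3) := by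
    rcases Nat.even_or_odd' n with ⟨k, hk | hk⟩
    · exact ⟨false, k, Or.inl ⟨rfl, hk⟩⟩
    · refine ⟨true, k - 1, Or.inr ⟨rfl, by omega⟩⟩
  obtain ⟨M, hM⟩ : ∃ M, M = (m + 3) / 4 := ⟨_, rfl⟩
  obtain ⟨J, hJ⟩ : ∃ J, J = M + 1 := ⟨_, rfl⟩
  have hM1 : 1 ≤ M := by omega
  have hm4 : m ≤ 4 * M := by omega
  have hm4' : 4 * M ≤ m + 3 := by omega
  have hm0 : 0 < m := by omega
  have hn0 : 0 < n := by omega
  have h2K : 2 * K ≤ n := by rcases hK with h | h <;> omega
  let lab : ℕ × ℕ → Fin m ⊕ Fin n := fun z =>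
    if z.1 % 2 = 0 then Sum.inl ⟨xl m J M z % m, Nat.mod_lt _ hm0⟩
    else Sum.inr ⟨yl K z % n, Nat.mod_lt _ hn0⟩
  -- labels are in range
  have hxm : ∀ z ∈ TT b K M J, z.1 % 2 = 0 → xl m J M z < m := by
    rintro ⟨r, k⟩ hz hr
    simp only at hr
    unfold xl
    simp only
    rcases Nat.lt_or_ge r 8 with h | h
    · rw [if_pos h]
      split_ifs with hc
      · exact hc.2
      · exact hm0
    · have := mem_TT_of_ge hz h
      rw [if_neg (by omega)]
      split_ifs with hc
      · exact hc.2.2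
      · omega
  have hyn : ∀ z ∈ TT b K M J, z.1 % 2 = 1 → yl K z < n := by
    rintro ⟨r, k⟩ hz hr
    simp only at hr
    unfold yl
    simp only
    rcases Nat.lt_or_ge r 8 with h | h
    · have h1 := mem_TT_of_lt hz h
      have h2 : n = 2 * K + 3 := by
        rcases hK with h3 | h3
        · rw [h3.1] at h1; exact absurd h1.1 (by simp)
        · exact h3.2
      rw [if_pos h]
      have := Nat.mod_lt (if r = 3 then 2 * k else 2 * k + 1) (by norm_num : 0 < 3)
      omega
    · have := mem_TT_of_ge hz h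
      rw [if_neg (by omega)]
      omega
  apply rep_of_family (lpos (TT b K M J) (PP J)) (lht (TT b K M J)) (fun z => lab z.1)
  · exact layer_disj (PP_mono J)
  · intro z z' hne hside
    apply nvis z z'
    · rintro rfl
      exact hne rfl
    · simp only [lab] at hside
      split_ifs at hside with h1 h2 h2
      · omega
      · simp at hside
      · simp at hside
      · omega
  · -- coverage
    rintro ⟨x, hx⟩ ⟨y, hy⟩
    have key : ∃ z z' : {z // z ∈ TT b K M J}, z.1.1 % 2 = 0 ∧ xl m J M z.1 = x ∧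
        z'.1.1 % 2 = 1 ∧ yl K z'.1 = y ∧
        Vis (lpos (TT b K M J) (PP J)) (lht (TT b K M J)) z z' := by
      by_cases hy2 : y < 2 * K
      · exact cover_B hx hm4 hy2
      · rcases hK with ⟨hb, hK⟩ | ⟨hb, hK⟩
        · omega
        · subst hb
          obtain ⟨z, z', h1, h2, h3, h4, h5⟩ := cover_A (K := K) (y := y - 2 * K) hJ hx hm4
            (by omega)
          exact ⟨z, z', h1, h2, h3, by rw [h4]; omega, h5⟩
    obtain ⟨z, z', h1, h2, h3, h4, h5⟩ := key
    refine ⟨z, z', ?_, ?_, h5⟩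
    · simp only [lab, if_pos h1, h2]
      congr 1
      exact Fin.ext (Nat.mod_eq_of_lt hx)
    · simp only [lab, if_neg (by omega : ¬ z'.1.1 % 2 = 0), h4]
      congr 1
      exact Fin.ext (Nat.mod_eq_of_lt hy)
  · -- counting
    intro v
    have h0 : (univ.filter (fun z : {z // z ∈ TT b K M J} => lab z.1 = v)).card ≤
        ((TT b K M J).filter (fun z => lab z = v)).card := by
      apply Finset.card_le_card_of_injOn Subtype.val
      · intro z hz
        have hz' := (Finset.mem_filter.1 hz).2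
        exact Finset.mem_filter.2 ⟨z.2, hz'⟩
      · intro z _ z' _ h
        exact Subtype.ext h
    refine h0.trans ?_
    rcases v with ⟨x, hx⟩ | ⟨y, hy⟩
    · have hsub : (TT b K M J).filter (fun z => lab z = Sum.inl ⟨x, hx⟩) ⊆
          (TB K M).filter (fun z => z.1 % 2 = 0 ∧ xl m J M z = x) ∪
          (TA J).filter (fun z => z.1 % 2 = 0 ∧ xl m J M z = x) := by
        intro z hz
        rw [Finset.mem_filter] at hz
        obtain ⟨h1, h2⟩ := hz
        simp only [lab] at h2
        split_ifs at h2 with hpar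
        have h3 := congrArg Fin.val (Sum.inl.inj h2)
        simp only at h3
        rw [Nat.mod_eq_of_lt (hxm z h1 hpar)] at h3
        rw [Finset.mem_union, Finset.mem_filter, Finset.mem_filter]
        rcases mem_TT.1 h1 with h4 | h4
        · exact Or.inl ⟨h4, hpar, h3⟩
        · exact Or.inr ⟨h4.2, hpar, h3⟩
      have h1 := (Finset.card_le_card hsub).trans (Finset.card_union_le _ _)
      have h2 := count_XB (K := K) (M := M) (J := J) (m := m) (x := x) hM1 hm4'
      have h3 := count_XA (M := M) (J := J) (m := m) (x := x) hM1 hJ hm4'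
      omega
    · by_cases hy2 : y < 2 * K
      · have hsub : (TT b K M J).filter (fun z => lab z = Sum.inr ⟨y, hy⟩) ⊆
            (TB K M).filter (fun z => z.1 % 2 = 1 ∧ yl K z = y) := by
          rintro ⟨r, k⟩ hz
          rw [Finset.mem_filter] at hz
          obtain ⟨h1, h2⟩ := hz
          simp only [lab] at h2
          split_ifs at h2 with hpar
          have h3 := congrArg Fin.val (Sum.inr.inj h2)
          simp only at h3
          rw [Nat.mod_eq_of_lt (hyn (r, k) h1 (by simp only; omega))] at h3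
          rw [Finset.mem_filter]
          rcases mem_TT.1 h1 with h4 | h4
          · exact ⟨h4, by simp only; omega, h3⟩
          · exfalso
            have h5 := mem_TA.1 h4.2
            unfold yl at h3
            simp only at h3
            rw [if_pos (by omega)] at h3
            omega
        have h1 := (Finset.card_le_card hsub).trans count_YB
        omega
      · have hsub : (TT b K M J).filter (fun z => lab z = Sum.inr ⟨y, hy⟩) ⊆
            (TA J).filter (fun z => z.1 % 2 = 1 ∧ yl K z = y) := by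
          rintro ⟨r, k⟩ hz
          rw [Finset.mem_filter] at hz
          obtain ⟨h1, h2⟩ := hz
          simp only [lab] at h2
          split_ifs at h2 with hpar
          have h3 := congrArg Fin.val (Sum.inr.inj h2)
          simp only at h3
          rw [Nat.mod_eq_of_lt (hyn (r, k) h1 (by simp only; omega))] at h3
          rw [Finset.mem_filter]
          rcases mem_TT.1 h1 with h4 | h4
          · exfalso
            have h5 := mem_TB.1 h4
            unfold yl at h3
            simp only at h3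
            rw [if_neg (by omega)] at h3
            omega
          · exact ⟨h4.2, by simp only; omega, h3⟩
        have h1 := (Finset.card_le_card hsub).trans count_YA
        omega

/-- `m / 4 ≤ ub(K_{m,n}) ≤ m / 4 + 12` for `2 ≤ n ≤ m` -/
theorem ub_bounds {m n : ℕ} (hn : 2 ≤ n) (hnm : n ≤ m) :
    m ≤ 4 * ub (completeBipartiteGraph (Fin m) (Fin n)) ∧
      ub (completeBipartiteGraph (Fin m) (Fin n)) ≤ m / 4 + 12 := by
  have hne : {t : ℕ | 0 < t ∧ ∃ R : Fin m ⊕ Fin n → Finset (ℝ × ℝ),
      IsRep (completeBipartiteGraph (Fin m) (Fin n)) t R}.Nonempty :=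
    ⟨_, by omega, exists_rep hn hnm⟩
  constructor
  · obtain ⟨_, R, hR⟩ := Nat.sInf_mem hne
    exact le_of_isRep hR (by omega)
  · exact Nat.sInf_le ⟨by omega, exists_rep hn hnm⟩

/-- the minimum in the definition of `ub` is attained -/
theorem ub_rep {m n : ℕ} (hn : 2 ≤ n) (hnm : n ≤ m) :
    ∃ R : Fin m ⊕ Fin n → Finset (ℝ × ℝ), IsRep (completeBipartiteGraph (Fin m) (Fin n))
      (ub (completeBipartiteGraph (Fin m) (Fin n))) R := by
  have hne : {t : ℕ | 0 < t ∧ ∃ R : Fin m ⊕ Fin n → Finset (ℝ × ℝ),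
      IsRep (completeBipartiteGraph (Fin m) (Fin n)) t R}.Nonempty :=
    ⟨_, by omega, exists_rep hn hnm⟩
  exact (Nat.sInf_mem hne).2

end Pool.Agent.R88.UB
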